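import Mathlib
import Pool.Agent.Helper25_TD.Oracle

/-!
# Answers, dominating images, Menger sets
-/

set_option autoImplicit false

namespace Pool.Agent.Helper15UN

open Pool.Agent.Helper25TD

/-- the set of all `z` that compute an answer to each number function computable from `z` -/
def Answers (R : (ℕ → ℕ) → (ℕ → ℕ) → Prop) : Set (ℕ → Bool) :=
  {z | ∀ f, TR z f → ∃ h, TR z h ∧ R f h}

/-- the first place at which `x` differs from `d j` (it is `0` if there is no such place) -/
noncomputable def lv (d : ℕ → (ℕ → Bool)) (j : ℕ) (x : ℕ → Bool) : ℕ := sInf {m | x m ≠ d j m}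

/-- the number of members of the sequence `d` that are looked at -/
noncomputable def Jn (d : ℕ → (ℕ → Bool)) (b : ℕ → ℕ) (x : ℕ → Bool) : ℕ → ℕ
  | 0 => b (Encodable.encode ([] : List Bool))
  | n + 1 => (Finset.range (Jn d b x n + 1)).sup fun j =>
      b (Encodable.encode (pre x (lv d j x + 1)))

/-- the late places at which `x` leaves the members of the sequence `d` -/
noncomputable def psi (d : ℕ → (ℕ → Bool)) (b : ℕ → ℕ) (x : ℕ → Bool) (n : ℕ) : ℕ :=
  (Finset.range (Jn d b x n + 1)).sup fun j => lv d j x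

/-- for no `x ∈ E` the function `h` is below `psi d b x` almost everywhere -/
def Rel (E : Set (ℕ → Bool)) (d : ℕ → (ℕ → Bool)) (b h : ℕ → ℕ) : Prop :=
  ∀ x ∈ E, ∀ N, ∃ n ≥ N, psi d b x n ≤ h n

/-- the image of `E` under `F` is dominating -/
def Dominates (F : (ℕ → Bool) → ℕ → ℕ) (E : Set (ℕ → Bool)) : Prop :=
  ∀ h : ℕ → ℕ, ∃ x ∈ E, ∃ N, ∀ n ≥ N, h n < F x n

/-- Menger's covering property: for every sequence of covers `U n` of `E` by open sets there are
finite subfamilies `V n` of `U n` such that the union of all `V n` covers `E`. -/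
def Menger (E : Set (ℕ → Bool)) : Prop :=
  ∀ U : ℕ → Set (Set (ℕ → Bool)), (∀ n, (∀ O ∈ U n, IsOpen O) ∧ E ⊆ ⋃₀ U n) →
    ∃ V : ℕ → Set (Set (ℕ → Bool)), (∀ n, V n ⊆ U n ∧ (V n).Finite) ∧ E ⊆ ⋃ n, ⋃₀ V n

end Pool.Agent.Helper15UN
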