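import Mathlib
import Pool.Agent.Helper56_WN.Bound

/-!
# Upper bounds with the Sacks property, for number functions

The construction is the one of `Helper56_WN.Bound`.
-/

set_option autoImplicit false

namespace Pool.Agent.Helper15UN

open Pool.Agent.Helper25TD Pool.Agent.Helper55AX Pool.Agent.Helper56WN Set
open Pool.Agent.Helper56WM (Loc)

/-- the values at level `k`; the list of strings `u` codes the number `u.length` -/
noncomputable def Sval (c : OCode) (g : List Bool → List Bool) (k : ℕ) : List ℕ :=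
  (full k).map fun σ => (sel c g (base c g k σ) k).2.length

theorem length_Sval (c : OCode) (g : List Bool → List Bool) (k : ℕ) :
    (Sval c g k).length = 2 ^ k := by
  unfold Sval
  rw [List.length_map, length_full]

theorem loc_Sval {ι : Type*} {c : OCode} {g : ι → List Bool → List Bool} (h : ∀ i, Tot c (g i))
    (k : ℕ) : Loc (fun i => cg (g i)) fun i => Sval c (g i) k := by
  unfold Sval
  have key : ∀ l : List (List Bool), Loc (fun i => cg (g i)) fun i =>
      l.map fun σ => (sel c (g i) (base c (g i) k σ) k).2.length := by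
    intro l
    induction l with
    | nil => exact Loc.const _ _
    | cons a l ih =>
      have h1 : Loc (fun i => cg (g i)) fun i => (sel c (g i) (base c (g i) k a) k).2.length :=
        Loc.bind (F := fun i => base c (g i) k a) (H := fun i r => (sel c (g i) r k).2.length)
          (loc_base h k a) fun r => (loc_sel h r k).map fun q => q.2.length
      simp only [List.map_cons]
      exact h1.map₂ ih fun u v => u :: v
  exact key (full k)

/-- the subtree and the slalom are computable relative to a fixed real -/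
theorem exists_fusion_oracle (c : OCode) : ∃ Z : ℕ → Bool, ∀ g, Tot c g → ∀ J, TLE (cg g) J →
    TLE Z J → TLE (cg fun s => g (hfu c g s)) J ∧
      TR J fun k => Encodable.encode (Sval c g k) := by
  obtain ⟨Z1, h1⟩ := Pool.Agent.Helper56WM.Loc.exists_cg (ι := {g // Tot c g}) (fun i => cg i.1)
    (fun i s => i.1 (hfu c i.1 s)) (fun s => by
      refine Loc.bind (F := fun i : {g // Tot c g} => hfu c i.1 s) (H := fun i r => i.1 r) ?_
        fun r => Pool.Agent.Helper56WM.Loc.cg_apply (fun i : {g // Tot c g} => i.1) r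
      exact loc_lev (g := fun i : {g // Tot c g} => i.1) (fun i => i.2) s.length s)
  obtain ⟨Z2, h2⟩ := Pool.Agent.Helper56WM.Loc.exists_TR (ι := {g // Tot c g})
    (fun i => cg i.1)
    (fun i k => Encodable.encode (Sval c i.1 k)) (fun k =>
      (loc_Sval (g := fun i : {g // Tot c g} => i.1) (fun i => i.2) k).map Encodable.encode)
  exact ⟨join Z1 Z2, fun g hg J hgJ hJ => ⟨h1 ⟨g, hg⟩ J hgJ ((TLE.join_left _ _).trans hJ),
    h2 ⟨g, hg⟩ J hgJ ((TLE.join_right _ _).trans hJ)⟩⟩

theorem fusion_slalom {c : OCode} {g : List Bool → List Bool} (hg : IsTree g) (h : Tot c g)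
    (a : ℕ → Bool) {C : ℕ → List (List Bool)}
    (hC : ∀ k, Encodable.encode (C k) ∈ eval (chi (G (fun s => g (hfu c g s)) a)) c k) (k : ℕ) :
    (C k).length ∈ Sval c g k := by
  have h3 : hfu c g (pre a k) = base c g k (pre a k) ++ (sel c g (base c g k (pre a k)) k).1 := by
    unfold hfu lev
    rw [length_pre]
  have h2 := h.sel_spec (base c g k (pre a k)) k
  rw [← h3] at h2
  have h4 := h2 _ ((hg.comp (isTree_hfu c g)).ext_G a k)
  have h5 : (sel c g (base c g k (pre a k)) k).2 = C k :=
    Encodable.encode_injective (Part.mem_unique h4 (hC k))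
  refine List.mem_map.2 ⟨pre a k, ?_, ?_⟩
  · rw [mem_full, length_pre]
  · rw [h5]

/-- a sufficiently strong oracle -/
structure Str (J : ℕ → Bool) : Prop where
  good : Good J
  fus : ∀ c g, Tot c g → TLE (cg g) J → TLE (cg fun s => g (hfu c g s)) J ∧
    TR J fun k => Encodable.encode (Sval c g k)

theorem exists_str : ∃ Z : ℕ → Bool, ∀ J, TLE Z J → Str J := by
  obtain ⟨Z1, h1⟩ := exists_good
  choose Z2 h2 using exists_fusion_oracle
  obtain ⟨Y, hY⟩ := exists_bound (ι := Option OCode) (fun o => o.elim Z1 Z2)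
  refine ⟨Y, fun J hJ => ⟨h1 J ((hY none).trans hJ), fun c g hg hgJ => ?_⟩⟩
  exact h2 c g hg J hgJ ((hY (some c)).trans hJ)

/-- a slalom computable from `z` that contains all functions with the code `c` and an oracle in the
tree `g` -/
def Catch (z : ℕ → Bool) (c : OCode) (g : List Bool → List Bool) : Prop :=
  ∃ S : ℕ → List ℕ, (∀ k, (S k).length ≤ 2 ^ k) ∧ (TR z fun k => Encodable.encode (S k)) ∧
    ∀ a (C : ℕ → List (List Bool)), (∀ k, Encodable.encode (C k) ∈ eval (chi (G g a)) c k) →
      ∀ k, (C k).length ∈ S k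

/-- one functional -/
theorem slalom_functional {z : ℕ → Bool} (hz : Str z) (c : OCode)
    {g : List Bool → List Bool} (hg : IsTree g) (hgz : TLE (cg g) z) :
    ∃ g' : List Bool → List Bool, IsTree g' ∧ TLE (cg g') z ∧ (∀ a, ∃ a', G g' a = G g a') ∧
      Catch z c g' := by
  by_cases h : Tot c g
  · obtain ⟨h1, h2⟩ := hz.fus c g h hgz
    exact ⟨fun s => g (hfu c g s), hg.comp (isTree_hfu c g), h1,
      fun a => ⟨_, hg.G_comp (isTree_hfu c g) a⟩, Sval c g, fun k => (length_Sval c g k).le, h2,
      fun a C hC k => fusion_slalom hg h a hC k⟩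
  · unfold Tot at h
    push Not at h
    obtain ⟨r, k, hrk⟩ := h
    refine ⟨fun s => g (r ++ s), hg.comp (isTree_append r), hz.good.app g r hgz,
      fun a => ⟨_, G_append hg r a⟩, fun _ => [], fun n => Nat.zero_le _, ?_, fun a C hC => ?_⟩
    · exact TR.prim (x := z) (f := fun _ => Encodable.encode ([] : List ℕ)) (Primrec.const _)
    · exfalso
      obtain ⟨N, hN⟩ := use_principle _ c _ _ (hC k)
      refine hrk (pre a N) (C k) fun x hx => hN x fun i hi => ?_
      have hT : IsTree fun s => g (r ++ s) := hg.comp (isTree_append r)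
      have h1 := hT.length_le (pre a N)
      rw [length_pre] at h1
      have h2 := hx i (by omega)
      have h3 := hT.ext_G a N i (by omega)
      rw [h2] at h3
      exact Option.some.inj h3

/-- one step of the construction -/
theorem slalom_step {z z' : ℕ → Bool} (hz : ∀ J, TLE z J → Str J) (hzz : TLE z z') (c : OCode)
    {g : List Bool → List Bool} (hg : IsTree g) (hgz : TLE (cg g) z) :
    ∃ g' : List Bool → List Bool, IsTree g' ∧ TLE (cg g') z' ∧ (∀ a, ∃ a', G g' a = G g a') ∧
      Catch z c g' ∧ ∀ a, TLE z (G g' a) → TLE z' (G g' a) := by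
  obtain ⟨g1, h1, h2, h3, S, hS1, hS2, hS3⟩ := slalom_functional (hz z (TLE.refl z)) c hg hgz
  have h7 : ∀ a, G (fun s => g1 (zp z' s)) a = G g1 (join z' a) := by
    intro a
    rw [← G_zp z' a]
    exact h1.G_comp (isTree_zp z') a
  refine ⟨fun s => g1 (zp z' s), h1.comp (isTree_zp z'), ?_, fun a => ?_,
    ⟨S, hS1, hS2, fun a C hC => ?_⟩, fun a hza => ?_⟩
  · exact (hz z' hzz).good.zpc g1 z' (h2.trans hzz) (TLE.refl z')
  · rw [h7]
    exact h3 _
  · rw [h7] at hC
    exact hS3 _ C hC
  · have h9 := (hz _ hza).good.inv g1 (join z' a) h1 (h2.trans hza)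
      (by rw [← h7]; exact TLE.refl _)
    exact (TLE.join_left z' a).trans h9

/-- a list of strings that codes the number `n` -/
def mark (n : ℕ) : List (List Bool) := (List.range n).map fun _ => []

theorem length_mark (n : ℕ) : (mark n).length = n := by simp [mark]

theorem TR_mark {t : ℕ → Bool} {f : ℕ → ℕ} (hf : TR t f) :
    TR t fun k => Encodable.encode (mark (f k)) := by
  have h1 : Primrec mark :=
    Primrec.list_map (g := fun _ _ => ([] : List Bool)) Primrec.list_range (Primrec.const [])
  exact TR.comp (f := fun n => Encodable.encode (mark n)) (TR.prim (Primrec.encode.comp h1)) hf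

/-- **Upper bounds with the Sacks property.** -/
theorem exists_bound_slalom : ∃ Z : ℕ → Bool, ∀ z : ℕ → (ℕ → Bool), TLE Z (z 0) →
    (∀ n, TLE (z n) (z (n + 1))) → ∃ t, (∀ n, TLE (z n) t) ∧
      ∀ f : ℕ → ℕ, TR t f → ∃ (n : ℕ) (S : ℕ → List ℕ), (∀ k, (S k).length ≤ 2 ^ k) ∧
        (TR (z n) fun k => Encodable.encode (S k)) ∧ ∀ k, f k ∈ S k := by
  obtain ⟨Z, hZ⟩ := exists_str
  refine ⟨Z, fun z h0 hz => ?_⟩
  have hle : ∀ n, TLE Z (z n) := by
    intro n
    induction n with
    | zero => exact h0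
    | succ n ih => exact ih.trans (hz n)
  have hgood : ∀ n J, TLE (z n) J → Str J := fun n J hJ => hZ J ((hle n).trans hJ)
  obtain ⟨ec, hec⟩ : ∃ e : ℕ → OCode, Function.Surjective e := by
    have : Nonempty OCode := ⟨OCode.zero⟩
    exact exists_surjective_nat OCode
  have step : ∀ n (g : {g : List Bool → List Bool // IsTree g ∧ TLE (cg g) (z n)}),
      ∃ g' : {g : List Bool → List Bool // IsTree g ∧ TLE (cg g) (z (n + 1))},
        (∀ a, ∃ a', G g'.1 a = G g.1 a') ∧ Catch (z n) (ec n) g'.1 ∧
        ∀ a, TLE (z n) (G g'.1 a) → TLE (z (n + 1)) (G g'.1 a) := by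
    rintro n ⟨g, hg1, hg2⟩
    obtain ⟨g', h1, h2, h3, h4, h5⟩ := slalom_step (hgood n) (hz n) (ec n) hg1 hg2
    exact ⟨⟨g', h1, h2⟩, h3, h4, h5⟩
  choose F hF using step
  let g0 : {g : List Bool → List Bool // IsTree g ∧ TLE (cg g) (z 0)} :=
    ⟨fun s => zp (z 0) s, isTree_zp (z 0),
      (hgood 0 (z 0) (TLE.refl _)).good.zpc (fun s => s) (z 0)
        (hgood 0 (z 0) (TLE.refl _)).good.idt (TLE.refl _)⟩
  let gs : ∀ n, {g : List Bool → List Bool // IsTree g ∧ TLE (cg g) (z n)} :=
    fun n => Nat.rec g0 F n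
  have hgs : ∀ n, gs (n + 1) = F n (gs n) := fun n => rfl
  have hnest : ∀ n, range (G (gs (n + 1)).1) ⊆ range (G (gs n).1) := by
    rintro n _ ⟨a, rfl⟩
    obtain ⟨a', ha'⟩ := (hF n (gs n)).1 a
    rw [hgs, ha']
    exact mem_range_self _
  have hcpt : ∀ n, IsCompact (range (G (gs n).1)) := fun n =>
    isCompact_range (continuous_G _)
  obtain ⟨t, ht⟩ := IsCompact.nonempty_iInter_of_sequence_nonempty_isCompact_isClosed
    (fun n => range (G (gs n).1)) hnest (fun n => range_nonempty _) (hcpt 0)
    (fun n => (hcpt n).isClosed)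
  rw [mem_iInter] at ht
  refine ⟨t, fun n => ?_, fun f hf => ?_⟩
  · induction n with
    | zero =>
      obtain ⟨a, ha⟩ := ht 0
      change G (fun s => zp (z 0) s) a = t at ha
      rw [← ha]
      change TLE (z 0) (G (zp (z 0)) a)
      rw [G_zp]
      exact TLE.join_left _ _
    | succ n ih =>
      obtain ⟨a, ha⟩ := ht (n + 1)
      have h1 := (hF n (gs n)).2.2 a
      rw [← hgs] at h1
      change G (gs (n + 1)).1 a = t at ha
      rw [ha] at h1
      exact h1 ih
  · obtain ⟨c, hc⟩ := exists_code (TR_mark hf)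
    obtain ⟨n, rfl⟩ := hec c
    obtain ⟨a, ha⟩ := ht (n + 1)
    change G (gs (n + 1)).1 a = t at ha
    obtain ⟨S, hS1, hS2, hS3⟩ := (hF n (gs n)).2.1
    refine ⟨n, S, hS1, hS2, fun k => ?_⟩
    have h1 := hS3 a (fun k => mark (f k)) (fun k => by
      rw [← hgs, ha, hc]
      exact Part.mem_some _) k
    simp only [length_mark] at h1
    exact h1

end Pool.Agent.Helper15UN
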