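import Mathlib
import Pool.Agent.Helper15_UN.Slalom
import Pool.Agent.Helper15_UN.Defs

/-!
# Choice of answers relative to one real
-/

set_option autoImplicit false

namespace Pool.Agent.Helper15UN

open Pool.Agent.Helper25TD Pool.Agent.Helper55AX Pool.Agent.Helper56WN Set
open Pool.Agent.Helper56WM (grf TR_of_grf)

/-- For some function `b` that tends to infinity and all sequences of finite sets `S k` with at most
`b k` elements some `h` is an answer to all `f` with `f k ∈ S k` for all `k`. -/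
def Stable (R : (ℕ → ℕ) → (ℕ → ℕ) → Prop) : Prop :=
  ∃ b : ℕ → ℕ, Filter.Tendsto b Filter.atTop Filter.atTop ∧ (∀ k, 0 < b k) ∧
    ∀ S : ℕ → Finset ℕ, (∀ k, (S k).card ≤ b k) → ∃ h, ∀ f, (∀ k, f k ∈ S k) → R f h

variable {R : (ℕ → ℕ) → (ℕ → ℕ) → Prop}

theorem turingInvariant_answers (R : (ℕ → ℕ) → (ℕ → ℕ) → Prop) :
    TuringInvariant (Answers R) := by
  intro x y hxy hyx hx f hf
  obtain ⟨h, h1, h2⟩ := hx f (TRmono hf hyx)
  exact ⟨h, TRmono h1 hxy, h2⟩

/-- the list of the first `m` values -/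
def ini (f : ℕ → ℕ) (m : ℕ) : List ℕ := (List.range m).map f

theorem ini_succ (f : ℕ → ℕ) (m : ℕ) : ini f (m + 1) = ini f m ++ [f m] := by
  simp [ini, List.range_succ]

theorem getD_ini {f : ℕ → ℕ} {m i : ℕ} (h : i < m) : (ini f m).getD i 0 = f i := by
  simp [ini, List.getD_eq_getElem?_getD, h]

theorem TR_ini {x : ℕ → Bool} {f : ℕ → ℕ} (hf : TR x f) :
    TR x fun m => Encodable.encode (ini f m) := by
  have hdec : Primrec fun m : ℕ => (Encodable.decode m : Option (List ℕ)).getD [] :=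
    Primrec.option_getD.comp Primrec.decode (Primrec.const [])
  -- the step
  have h1 : Primrec fun m : ℕ => Encodable.encode
      ((Encodable.decode m.unpair.1 : Option (List ℕ)).getD [] ++ [m.unpair.2]) :=
    Primrec.encode.comp (Primrec.list_append.comp
      (hdec.comp (Primrec.fst.comp Primrec.unpair))
      (Primrec.list_cons.comp (Primrec.snd.comp Primrec.unpair) (Primrec.const [])))
  have h2 : TR x fun m => (Nat.unpair (Nat.unpair m).2).2 :=
    TR.prim (Primrec.snd.comp (Primrec.unpair.comp (Primrec.snd.comp Primrec.unpair)))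
  have h3 : TR x fun m => f (Nat.unpair (Nat.unpair m).2).1 :=
    hf.comp (TR.prim (Primrec.fst.comp (Primrec.unpair.comp (Primrec.snd.comp Primrec.unpair))))
  have h4 := (TR.prim (x := x) h1).comp (h2.pair h3)
  have h5 := (TR.prec (TR.prim (x := x) (Primrec.const (Encodable.encode ([] : List ℕ)))) h4).comp
    (TR.prim (Primrec₂.natPair.comp (Primrec.const 0) Primrec.id))
  simp only [Nat.unpair_pair, id] at h5
  have h6 : (fun m => Encodable.encode (ini f m)) = fun m =>
      (Nat.rec (Encodable.encode ([] : List ℕ)) (fun y i => Encodable.encode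
        ((Encodable.decode i : Option (List ℕ)).getD [] ++ [f y])) m : ℕ) := by
    funext m
    induction m with
    | zero => rfl
    | succ m ih =>
      rw [ini_succ]
      simp only [← ih, Encodable.encodek, Option.getD_some]
  rw [h6]
  exact h5

/-- thresholds for the growth of `b` -/
theorem exists_thresholds {b : ℕ → ℕ} (hb : Filter.Tendsto b Filter.atTop Filter.atTop)
    (hb0 : ∀ k, 0 < b k) : ∃ n : ℕ → ℕ, StrictMono n ∧ n 0 = 0 ∧ ∀ k, ∀ i ≥ n k, 2 ^ k ≤ b i := by
  have h1 : ∀ k, ∃ N, ∀ i ≥ N, 2 ^ k ≤ b i := fun k =>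
    Filter.eventually_atTop.1 (Filter.tendsto_atTop.1 hb (2 ^ k))
  choose N hN using h1
  let n : ℕ → ℕ := fun k => Nat.rec 0 (fun k m => max (m + 1) (N (k + 1))) k
  have hn : ∀ k, n (k + 1) = max (n k + 1) (N (k + 1)) := fun k => rfl
  refine ⟨n, strictMono_nat_of_lt_succ fun k => ?_, rfl, fun k i hi => ?_⟩
  · rw [hn]
    omega
  · cases k with
    | zero =>
      rw [pow_zero]
      exact hb0 i
    | succ k =>
      rw [hn] at hi
      exact hN (k + 1) i ((le_max_right _ _).trans hi)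

/-- one step -/
theorem exists_step (hR : Stable R) : ∃ (n : ℕ → ℕ), ∀ y : ℕ → Bool, ∃ y' : ℕ → Bool,
    TLE y y' ∧ ∀ S : ℕ → List ℕ, (∀ k, (S k).length ≤ 2 ^ k) →
      (TR y fun k => Encodable.encode (S k)) →
      ∃ h, TR y' h ∧ ∀ f, (∀ k, Encodable.encode (ini f (n k)) ∈ S k) → R f h := by
  classical
  obtain ⟨b, hb, hb0, hS⟩ := hR
  obtain ⟨n, hn, hn0, hnb⟩ := exists_thresholds hb hb0
  -- the block of `i`
  have hblock : ∀ i, ∃ k, n k ≤ i ∧ i < n (k + 1) := by
    intro i
    have hex : ∃ k, i < n (k + 1) := ⟨i, lt_of_lt_of_le (Nat.lt_succ_self i) hn.le_apply⟩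
    refine ⟨Nat.find hex, ?_, Nat.find_spec hex⟩
    rcases Nat.eq_zero_or_pos (Nat.find hex) with h0 | h0
    · rw [h0, hn0]
      exact Nat.zero_le _
    · have h1 := Nat.find_min hex (show Nat.find hex - 1 < Nat.find hex by omega)
      have h2 : Nat.find hex - 1 + 1 = Nat.find hex := by omega
      rw [h2] at h1
      omega
  choose κ hκ1 hκ2 using hblock
  -- every slalom has an answer
  have hans : ∀ S : ℕ → List ℕ, (∀ k, (S k).length ≤ 2 ^ k) →
      ∃ h, ∀ f, (∀ k, Encodable.encode (ini f (n (k + 1))) ∈ S k) → R f h := by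
    intro S hS2
    obtain ⟨h, hh⟩ := hS (fun i => ((S (κ i)).map fun v =>
      ((Encodable.decode v : Option (List ℕ)).getD []).getD i 0).toFinset) fun i => by
        refine (List.toFinset_card_le _).trans ?_
        rw [List.length_map]
        exact (hS2 _).trans (hnb _ _ (hκ1 i))
    refine ⟨h, fun f hf => hh f fun i => ?_⟩
    rw [List.mem_toFinset, List.mem_map]
    refine ⟨_, hf (κ i), ?_⟩
    rw [Encodable.encodek, Option.getD_some]
    exact getD_ini (hκ2 i)
  refine ⟨fun k => n (k + 1), fun y => ?_⟩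
  have hc : ∀ c : OCode, ∃ h : ℕ → ℕ, ∀ S : ℕ → List ℕ, (∀ k, (S k).length ≤ 2 ^ k) →
      (∀ k, Encodable.encode (S k) ∈ eval (chi y) c k) →
      ∀ f, (∀ k, Encodable.encode (ini f (n (k + 1))) ∈ S k) → R f h := by
    intro c
    by_cases hex : ∃ S : ℕ → List ℕ, (∀ k, (S k).length ≤ 2 ^ k) ∧
      ∀ k, Encodable.encode (S k) ∈ eval (chi y) c k
    · obtain ⟨S, h1, h2⟩ := hex
      obtain ⟨h, hh⟩ := hans S h1
      refine ⟨h, fun S' h1' h2' => ?_⟩
      have h3 : S' = S := by
        funext k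
        exact Encodable.encode_injective (Part.mem_unique (h2' k) (h2 k))
      rw [h3]
      exact hh
    · exact ⟨fun _ => 0, fun S h1 h2 => absurd ⟨S, h1, h2⟩ hex⟩
  choose H hH using hc
  obtain ⟨Y, hY⟩ := exists_bound (ι := Option OCode) (fun o => o.elim y fun c => grf (H c))
  refine ⟨Y, hY none, fun S h1 h2 => ?_⟩
  obtain ⟨c, hc⟩ := exists_code h2
  refine ⟨H c, TR_of_grf (hY (some c)), hH c S h1 fun k => ?_⟩
  rw [hc]
  exact Part.mem_some _

/-- If `R` is stable, then the set `Answers R` meets every cone. -/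
theorem exists_mem_answers (hR : Stable R) (z : ℕ → Bool) : ∃ t, TLE z t ∧ t ∈ Answers R := by
  obtain ⟨Z, hZ⟩ := exists_bound_slalom
  obtain ⟨n, hstep⟩ := exists_step hR
  choose F h1 h2 using hstep
  obtain ⟨zn, hzn⟩ := Pool.Agent.Helper56TB.exists_code_fun n
  let y : ℕ → (ℕ → Bool) := fun k => Nat.rec (join (join z zn) Z) (fun _ y => F y) k
  have hy : ∀ k, y (k + 1) = F (y k) := fun k => rfl
  obtain ⟨t, ht1, ht2⟩ := hZ y (TLE.join_right _ Z) (fun k => by
    rw [hy]
    exact h1 _)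
  have hz0 : TLE (join z zn) t := (TLE.join_left _ Z).trans (ht1 0)
  refine ⟨t, (TLE.join_left z zn).trans hz0, fun f hf => ?_⟩
  have h3 : TR t fun k => Encodable.encode (ini f (n k)) :=
    (TR_ini hf).comp (hzn t ((TLE.join_right z zn).trans hz0))
  obtain ⟨m, S, hS1, hS2, hS3⟩ := ht2 _ h3
  obtain ⟨h, hh1, hh2⟩ := h2 (y m) S hS1 hS2
  refine ⟨h, TRmono hh1 ?_, hh2 f hS3⟩
  have := ht1 (m + 1)
  rwa [hy] at this

theorem not_winsII_answers (hR : Stable R) : ¬ WinsII (Answers R) := by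
  intro h
  obtain ⟨z, hz⟩ := Pool.Agent.Helper56TB.cone_of_winsII (turingInvariant_answers R) h
  obtain ⟨t, ht, ht'⟩ := exists_mem_answers hR z
  exact hz t ht ht'

/-- **Choice.** -/
theorem choice (hR : Stable R) (h : WinsI (Answers R) ∨ WinsII (Answers R)) :
    ∃ z, ∀ y, TLE z y → ∀ f, TR y f → ∃ h, TR y h ∧ R f h := by
  obtain ⟨z, hz⟩ := Pool.Agent.Helper56TB.cone_of_winsI (turingInvariant_answers R)
    (h.resolve_right (not_winsII_answers hR))
  exact ⟨z, fun y hy => hz y hy⟩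

/-- relations whose answers are inherited by smaller functions -/
theorem stable_of_mono (h1 : ∀ f g h : ℕ → ℕ, f ≤ g → R g h → R f h) (h2 : ∀ f, ∃ h, R f h) :
    Stable R := by
  refine ⟨fun k => k + 1, Filter.tendsto_add_atTop_nat 1, fun k => Nat.succ_pos k,
    fun S _ => ?_⟩
  obtain ⟨h, hh⟩ := h2 fun k => (S k).sup id
  exact ⟨h, fun f hf => h1 f _ h (fun k => Finset.le_sup (f := id) (hf k)) hh⟩

end Pool.Agent.Helper15UN
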