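import Mathlib
import Pool.Agent.Helper15_UN.Choice

/-!
# Analytic sets and category
-/

set_option autoImplicit false

namespace Pool.Agent.Helper15UN

open MeasureTheory Topology Set

section

variable {Y : Type*} [TopologicalSpace Y]

/-- the points all of whose neighbourhoods meet `S` in a set that is not meager -/
def Dn (S : Set Y) : Set Y := {y | ∀ O, IsOpen O → y ∈ O → ¬ IsMeagre (S ∩ O)}

theorem isClosed_Dn (S : Set Y) : IsClosed (Dn S) := by
  rw [← isOpen_compl_iff, isOpen_iff_forall_mem_open]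
  intro y hy
  have h1 : ∃ O, IsOpen O ∧ y ∈ O ∧ IsMeagre (S ∩ O) := by
    by_contra hcon
    push Not at hcon
    exact hy hcon
  obtain ⟨O, hO, hyO, hm⟩ := h1
  exact ⟨O, fun x hx hxD => hxD O hO hx hm, hO, hyO⟩

theorem isMeagre_diff_interior {F : Set Y} (hF : IsClosed F) : IsMeagre (F \ interior F) := by
  refine IsNowhereDense.isMeagre ?_
  have h1 : F \ interior F = frontier F := by rw [frontier, hF.closure_eq]
  rw [h1, (isClosed_frontier).isNowhereDense_iff]
  exact interior_frontier hF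

theorem isMeagre_closure_diff {U : Set Y} (hU : IsOpen U) : IsMeagre (closure U \ U) := by
  have h1 := isMeagre_diff_interior hU.isClosed_compl
  refine h1.mono ?_
  rintro x ⟨hx, hxU⟩
  refine ⟨hxU, fun h => ?_⟩
  rw [interior_compl] at h
  exact h hx

variable [SecondCountableTopology Y]

theorem isMeagre_diff_Dn (S : Set Y) : IsMeagre (S \ Dn S) := by
  have h1 : S \ Dn S ⊆ ⋃ B ∈ {B ∈ TopologicalSpace.countableBasis Y | IsMeagre (S ∩ B)},
      S ∩ B := by
    rintro x ⟨hx, hxD⟩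
    have h1 : ∃ O, IsOpen O ∧ x ∈ O ∧ IsMeagre (S ∩ O) := by
      by_contra hcon
      push Not at hcon
      exact hxD hcon
    obtain ⟨O, hO, hxO, hm⟩ := h1
    obtain ⟨B, hB, hxB, hBO⟩ :=
      (TopologicalSpace.isBasis_countableBasis Y).exists_subset_of_mem_open hxO hO
    exact mem_biUnion (x := B) ⟨hB, hm.mono (inter_subset_inter_right S hBO)⟩ ⟨hx, hxB⟩
  exact (isMeagre_biUnion ((TopologicalSpace.countable_countableBasis Y).mono
    (sep_subset _ _)) fun B hB => hB.2).mono h1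

theorem isMeagre_Dn_diff_iUnion {ι : Type*} [Countable ι] {S : Set Y} {T : ι → Set Y}
    (h : S ⊆ ⋃ k, T k) : IsMeagre (Dn S \ ⋃ k, Dn (T k)) := by
  set V : Set Y := ⋃ k, interior (Dn (T k)) with hV
  have hVo : IsOpen V := isOpen_iUnion fun k => isOpen_interior
  have h1 : interior (Dn S) ⊆ closure V := by
    by_contra hcon
    obtain ⟨y, hy, hyV⟩ := not_subset.1 hcon
    have hO : IsOpen (interior (Dn S) ∩ (closure V)ᶜ) :=
      isOpen_interior.inter isClosed_closure.isOpen_compl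
    refine interior_subset hy _ hO ⟨hy, hyV⟩ ?_
    have h2 : S ∩ (interior (Dn S) ∩ (closure V)ᶜ) ⊆
        ⋃ k, ((T k \ Dn (T k)) ∪ (Dn (T k) \ interior (Dn (T k)))) := by
      rintro x ⟨hxS, -, hxV⟩
      obtain ⟨k, hk⟩ := mem_iUnion.1 (h hxS)
      refine mem_iUnion.2 ⟨k, ?_⟩
      by_cases hx : x ∈ Dn (T k)
      · refine Or.inr ⟨hx, fun hxi => hxV (subset_closure ?_)⟩
        exact mem_iUnion.2 ⟨k, hxi⟩
      · exact Or.inl ⟨hk, hx⟩
    exact (isMeagre_iUnion fun k =>
      (isMeagre_diff_Dn (T k)).union (isMeagre_diff_interior (isClosed_Dn (T k)))).mono h2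
  refine ((isMeagre_diff_interior (isClosed_Dn S)).union (isMeagre_closure_diff hVo)).mono ?_
  rintro x ⟨hxS, hx⟩
  by_cases hxi : x ∈ interior (Dn S)
  · refine Or.inr ⟨h1 hxi, fun hxV => hx ?_⟩
    obtain ⟨k, hk⟩ := mem_iUnion.1 hxV
    exact mem_iUnion.2 ⟨k, interior_subset hk⟩
  · exact Or.inl ⟨hxS, hxi⟩

/-- the functions with the initial segment `s` -/
def cylN (s : List ℕ) : Set (ℕ → ℕ) := {f | ini f s.length = s}

theorem length_ini (f : ℕ → ℕ) (n : ℕ) : (ini f n).length = n := by simp [ini]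

theorem ini_eq_iff {f g : ℕ → ℕ} {n : ℕ} : ini f n = ini g n ↔ ∀ i < n, f i = g i := by
  constructor
  · intro h i hi
    rw [← getD_ini (f := f) hi, h, getD_ini hi]
  · intro h
    induction n with
    | zero => rfl
    | succ n ih =>
      rw [ini_succ, ini_succ, ih fun i hi => h i (hi.trans (Nat.lt_succ_self n)),
        h n (Nat.lt_succ_self n)]

theorem cylN_subset (s : List ℕ) : cylN s ⊆ ⋃ k, cylN (s ++ [k]) := by
  intro f hf
  refine mem_iUnion.2 ⟨f s.length, ?_⟩
  change ini f (s ++ [f s.length]).length = s ++ [f s.length]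
  rw [List.length_append, List.length_singleton, ini_succ, hf]

theorem exists_cylN {V : Set (ℕ → ℕ)} (hV : IsOpen V) {f : ℕ → ℕ} (hf : f ∈ V) :
    ∃ n, cylN (ini f n) ⊆ V := by
  rw [isOpen_pi_iff] at hV
  obtain ⟨I, u, hu, huV⟩ := hV f hf
  refine ⟨I.sup id + 1, fun g hg => huV fun i hi => ?_⟩
  have h1 : i ≤ I.sup id := Finset.le_sup (f := id) (Finset.mem_coe.1 hi)
  have h2 : ini g (I.sup id + 1) = ini f (I.sup id + 1) := by
    have h3 : ini g (ini f (I.sup id + 1)).length = ini f (I.sup id + 1) := hg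
    rwa [length_ini] at h3
  rw [ini_eq_iff.1 h2 i (by omega)]
  exact (hu i (Finset.mem_coe.1 hi)).2

variable [T2Space Y]

/-- An analytic set contains almost all points at which it is nowhere meager. -/
theorem isMeagre_Dn_diff {Q : Set Y} (hQ : AnalyticSet Q) : IsMeagre (Dn Q \ Q) := by
  classical
  rw [AnalyticSet] at hQ
  rcases hQ with rfl | ⟨g, hg, rfl⟩
  · refine (IsMeagre.empty : IsMeagre (∅ : Set Y)).mono ?_
    rintro x ⟨hx, -⟩
    exact absurd ((IsMeagre.empty : IsMeagre (∅ : Set Y)).mono inter_subset_left)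
      (hx univ isOpen_univ (mem_univ x))
  · have h1 : ∀ s : List ℕ, IsMeagre (Dn (g '' cylN s) \ ⋃ k, Dn (g '' cylN (s ++ [k]))) := by
      intro s
      refine isMeagre_Dn_diff_iUnion ?_
      rw [← image_iUnion]
      exact image_mono (cylN_subset s)
    refine (isMeagre_iUnion h1).mono ?_
    rintro x ⟨hx, hxg⟩
    by_contra hcon
    have h2 : ∀ s, x ∈ Dn (g '' cylN s) → ∃ k, x ∈ Dn (g '' cylN (s ++ [k])) := by
      intro s hs
      by_contra hk
      refine hcon (mem_iUnion.2 ⟨s, hs, fun h3 => hk ?_⟩)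
      exact mem_iUnion.1 h3
    have h3 : ∀ s, ∃ k, x ∈ Dn (g '' cylN s) → x ∈ Dn (g '' cylN (s ++ [k])) := by
      intro s
      by_cases hs : x ∈ Dn (g '' cylN s)
      · obtain ⟨k, hk⟩ := h2 s hs
        exact ⟨k, fun _ => hk⟩
      · exact ⟨0, fun h => absurd h hs⟩
    choose κ hκ using h3
    let s : ℕ → List ℕ := fun n => Nat.rec [] (fun _ s => s ++ [κ s]) n
    have hs : ∀ n, s (n + 1) = s n ++ [κ (s n)] := fun n => rfl
    have h4 : ∀ n, ini (fun n => κ (s n)) n = s n := by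
      intro n
      induction n with
      | zero => rfl
      | succ n ih => rw [ini_succ, ih, hs]
    have h5 : ∀ n, x ∈ Dn (g '' cylN (s n)) := by
      intro n
      induction n with
      | zero =>
        have : (cylN (s 0)) = univ := by
          ext f
          simp [cylN, s, ini]
        rw [this, image_univ]
        exact hx
      | succ n ih =>
        rw [hs]
        exact hκ _ ih
    refine hxg ⟨fun n => κ (s n), ?_⟩
    by_contra hne
    obtain ⟨V, W, hV, hW, hgV, hxW, hVW⟩ := t2_separation hne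
    obtain ⟨n, hn⟩ := exists_cylN (hV.preimage hg) hgV
    rw [h4] at hn
    refine h5 n W hW hxW ((IsMeagre.empty : IsMeagre (∅ : Set Y)).mono ?_)
    rintro y ⟨⟨f, hf, rfl⟩, hy⟩
    exact (disjoint_left.1 hVW (hn hf) hy).elim

/-- Localization: an analytic set that is disjoint from a set `S` that is not meager is meager in
some open set in which `S` is nowhere meager. -/
theorem exists_open {Q S : Set Y} (hQ : AnalyticSet Q) (hS : ¬ IsMeagre S) (hd : Disjoint S Q) :
    ∃ O, IsOpen O ∧ O.Nonempty ∧ IsMeagre (Q ∩ O) ∧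
      ∀ O', IsOpen O' → (O' ∩ O).Nonempty → ¬ IsMeagre (S ∩ O') := by
  have h1 : IsMeagre ((Dn Q \ Q) ∪ ((S \ Dn S) ∪ (Dn S \ interior (Dn S)))) :=
    (isMeagre_Dn_diff hQ).union
      ((isMeagre_diff_Dn S).union (isMeagre_diff_interior (isClosed_Dn S)))
  obtain ⟨x, hxS, hx⟩ : ∃ x ∈ S, x ∉ (Dn Q \ Q) ∪ ((S \ Dn S) ∪ (Dn S \ interior (Dn S))) := by
    by_contra hcon
    push Not at hcon
    exact hS (h1.mono hcon)
  rw [mem_union, mem_union, not_or, not_or] at hx
  obtain ⟨hx1, hx2, hx3⟩ := hx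
  have hxQ : x ∉ Q := disjoint_left.1 hd hxS
  have hxDQ : x ∉ Dn Q := fun h => hx1 ⟨h, hxQ⟩
  have hxDS : x ∈ Dn S := by
    by_contra h
    exact hx2 ⟨hxS, h⟩
  have hxi : x ∈ interior (Dn S) := by
    by_contra h
    exact hx3 ⟨hxDS, h⟩
  refine ⟨(Dn Q)ᶜ ∩ interior (Dn S), (isClosed_Dn Q).isOpen_compl.inter isOpen_interior,
    ⟨x, hxDQ, hxi⟩, ?_, ?_⟩
  · refine (isMeagre_diff_Dn Q).mono ?_
    rintro y ⟨hy, hyD, -⟩
    exact ⟨hy, hyD⟩
  · rintro O' hO' ⟨y, hyO', -, hy⟩
    exact interior_subset hy O' hO' hyO'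

end

end Pool.Agent.Helper15UN
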