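import Mathlib
import Pool.Agent.Helper15_UN.Baire
import Pool.Agent.Helper15_DD.Codes

/-!
# Leaving the members of a sequence
-/

set_option autoImplicit false

namespace Pool.Agent.Helper15UN

open MeasureTheory Topology Set Pool.Agent.Helper25TD Pool.Agent.Helper56WN
open Pool.Agent.Helper56WM (Loc)

variable {d : ℕ → (ℕ → Bool)} {b b' : ℕ → ℕ} {x : ℕ → Bool}

theorem lv_spec {j : ℕ} (h : x ≠ d j) : x (lv d j x) ≠ d j (lv d j x) := by
  have h1 : {m | x m ≠ d j m}.Nonempty := by
    by_contra hcon
    rw [not_nonempty_iff_eq_empty, eq_empty_iff_forall_notMem] at hcon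
    refine h (funext fun m => ?_)
    by_contra hm
    exact hcon m hm
  exact Nat.sInf_mem h1

theorem eq_of_lt_lv {j m : ℕ} (h : m < lv d j x) : x m = d j m := by
  by_contra hm
  exact Nat.notMem_of_lt_sInf h hm

theorem lv_eq {j m : ℕ} (h1 : ∀ i < m, x i = d j i) (h2 : x m ≠ d j m) : lv d j x = m := by
  apply le_antisymm
  · exact Nat.sInf_le h2
  · by_contra hcon
    push Not at hcon
    have h3 : x ≠ d j := fun h => h2 (by rw [h])
    exact lv_spec h3 (h1 _ hcon)

theorem Jn_mono (h : b ≤ b') (n : ℕ) : Jn d b x n ≤ Jn d b' x n := by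
  induction n with
  | zero => exact h _
  | succ n ih =>
    refine Finset.sup_le fun j hj => ?_
    refine (h _).trans ?_
    refine Finset.le_sup (f := fun j => b' (Encodable.encode (pre x (lv d j x + 1)))) ?_
    rw [Finset.mem_range] at hj ⊢
    omega

theorem psi_mono (h : b ≤ b') (n : ℕ) : psi d b x n ≤ psi d b' x n := by
  refine Finset.sup_mono fun j hj => ?_
  have h1 := Jn_mono (d := d) (x := x) h n
  rw [Finset.mem_range] at hj ⊢
  omega

theorem le_Jn_succ {j n : ℕ} (h : j ≤ Jn d b x n) :
    b (Encodable.encode (pre x (lv d j x + 1))) ≤ Jn d b x (n + 1) :=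
  Finset.le_sup (f := fun j => b (Encodable.encode (pre x (lv d j x + 1))))
    (Finset.mem_range.2 (Nat.lt_succ_of_le h))

theorem lv_le_psi {j n : ℕ} (h : j ≤ Jn d b x n) : lv d j x ≤ psi d b x n :=
  Finset.le_sup (f := fun j => lv d j x) (Finset.mem_range.2 (Nat.lt_succ_of_le h))

/-! ### continuity -/

theorem loc_pre {ι : Type*} (y : ι → (ℕ → Bool)) (m : ℕ) : Loc y fun i => pre (y i) m := by
  induction m with
  | zero => exact Loc.const y []
  | succ m ih =>
    have h1 := ih.map₂ (Loc.apply y m) fun (l : List Bool) (c : Bool) => l ++ [c]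
    intro i
    obtain ⟨n, hn⟩ := h1 i
    refine ⟨n, fun j hj => ?_⟩
    have h2 := hn j hj
    simp only at h2 ⊢
    rw [pre_succ, pre_succ]
    exact h2

theorem loc_sup {ι : Type*} {y : ι → (ℕ → Bool)} {F : ι → ℕ → ℕ}
    (hF : ∀ j, Loc y fun i => F i j) (m : ℕ) : Loc y fun i => (Finset.range m).sup (F i) := by
  refine Loc.of_finset hF (fun _ => Finset.range m) fun i j h => ?_
  exact Finset.sup_congr rfl h

/-- the elements of Cantor space that are not members of the sequence -/
abbrev Off (d : ℕ → (ℕ → Bool)) : Type := {x : ℕ → Bool // ∀ j, x ≠ d j}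

theorem loc_lv (d : ℕ → (ℕ → Bool)) (j : ℕ) :
    Loc (fun i : Off d => i.1) fun i => lv d j i.1 := by
  refine Loc.search (P := fun (i : Off d) m => i.1 m ≠ d j m) (fun m => ?_) fun i => ?_
  · exact (Loc.apply (fun i : Off d => i.1) m).map fun c => c ≠ d j m
  · exact ⟨_, lv_spec (i.2 j)⟩

theorem loc_Jn (d : ℕ → (ℕ → Bool)) (b : ℕ → ℕ) (n : ℕ) :
    Loc (fun i : Off d => i.1) fun i => Jn d b i.1 n := by
  induction n with
  | zero => exact Loc.const _ _
  | succ n ih =>
    refine Loc.bind (F := fun i : Off d => Jn d b i.1 n)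
      (H := fun (i : Off d) m => (Finset.range (m + 1)).sup fun j =>
        b (Encodable.encode (pre i.1 (lv d j i.1 + 1)))) ih fun m => ?_
    refine loc_sup (F := fun (i : Off d) j => b (Encodable.encode (pre i.1 (lv d j i.1 + 1))))
      (fun j => ?_) (m + 1)
    refine Loc.bind (F := fun i : Off d => lv d j i.1)
      (H := fun (i : Off d) l => b (Encodable.encode (pre i.1 (l + 1)))) (loc_lv d j) fun l => ?_
    exact (loc_pre (fun i : Off d => i.1) (l + 1)).map fun s => b (Encodable.encode s)

theorem loc_psi (d : ℕ → (ℕ → Bool)) (b : ℕ → ℕ) (n : ℕ) :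
    Loc (fun i : Off d => i.1) fun i => psi d b i.1 n := by
  refine Loc.bind (F := fun i : Off d => Jn d b i.1 n)
    (H := fun (i : Off d) m => (Finset.range (m + 1)).sup fun j => lv d j i.1) (loc_Jn d b n)
    fun m => ?_
  exact loc_sup (F := fun (i : Off d) j => lv d j i.1) (loc_lv d) (m + 1)

theorem isOpen_agree (x : ℕ → Bool) (n : ℕ) : IsOpen {y : ℕ → Bool | ∀ l < n, y l = x l} :=
  isOpen_cyl x n

theorem continuousOn_psi (d : ℕ → (ℕ → Bool)) (b : ℕ → ℕ) :
    ContinuousOn (psi d b) {x | ∀ j, x ≠ d j} := by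
  rw [continuousOn_pi]
  intro n x hx
  rw [ContinuousWithinAt]
  refine tendsto_nhds_of_eventually_eq ?_
  obtain ⟨N, hN⟩ := loc_psi d b n ⟨x, hx⟩
  have h1 : {y : ℕ → Bool | ∀ l < N, y l = x l} ∈ 𝓝[{x | ∀ j, x ≠ d j}] x :=
    mem_nhdsWithin_of_mem_nhds ((isOpen_agree x N).mem_nhds fun _ _ => rfl)
  filter_upwards [h1, self_mem_nhdsWithin] with y hy hy'
  exact hN ⟨y, hy'⟩ hy

/-! ### measurability -/

theorem measurable_eval {Ω : Type*} [MeasurableSpace Ω] {c : Ω → ℕ} {B : Ω → ℕ → ℕ}
    (hc : Measurable c) (hB : ∀ k, Measurable fun p => B p k) : Measurable fun p => B p (c p) := by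
  intro s hs
  have h1 : (fun p => B p (c p)) ⁻¹' s = ⋃ k, (c ⁻¹' {k} ∩ (fun p => B p k) ⁻¹' s) := by
    ext p
    simp
  rw [h1]
  exact MeasurableSet.iUnion fun k => (hc (MeasurableSet.of_discrete)).inter (hB k hs)

theorem continuous_of_loc {F : (ℕ → Bool) → ℕ} (h : Loc (fun x : ℕ → Bool => x) F) :
    Continuous F := by
  rw [continuous_iff_continuousAt]
  intro x
  refine tendsto_nhds_of_eventually_eq ?_
  obtain ⟨N, hN⟩ := h x
  filter_upwards [(isOpen_agree x N).mem_nhds fun _ _ => rfl] with y hy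
  exact hN y hy

theorem measurable_sup {Ω : Type*} [MeasurableSpace Ω] {F : Ω → ℕ → ℕ}
    (hF : ∀ j, Measurable fun p => F p j) (m : ℕ) :
    Measurable fun p => (Finset.range m).sup (F p) := by
  induction m with
  | zero =>
    simp only [Finset.range_zero, Finset.sup_empty]
    exact measurable_const
  | succ m ih =>
    simp only [Finset.range_add_one, Finset.sup_insert]
    exact (hF m).sup ih

variable {Ω : Type*} [MeasurableSpace Ω] {xx : Ω → (ℕ → Bool)} {bb : Ω → ℕ → ℕ}

theorem measurable_lv (d : ℕ → (ℕ → Bool)) (hx : Measurable xx) (j : ℕ) :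
    Measurable fun p => lv d j (xx p) := by
  classical
  have hm : ∀ m, MeasurableSet {p | xx p m = d j m} := fun m =>
    ((measurable_pi_apply m).comp hx) (measurableSet_singleton _)
  have hex : ∀ p, ∃ N, (xx p N ≠ d j N ∨ ∀ m, xx p m = d j m) := by
    intro p
    by_cases h : ∀ m, xx p m = d j m
    · exact ⟨0, Or.inr h⟩
    · push Not at h
      obtain ⟨m, hm⟩ := h
      exact ⟨m, Or.inl hm⟩
  have h1 : (fun p => lv d j (xx p)) = fun p => Nat.find (hex p) := by
    funext p
    by_cases h : ∀ m, xx p m = d j m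
    · have h2 : {m | xx p m ≠ d j m} = ∅ := by
        ext m
        simp [h m]
      have h3 : Nat.find (hex p) = 0 := (Nat.find_eq_zero _).2 (Or.inr h)
      rw [h3, lv, h2, Nat.sInf_empty]
    · have h2 := Nat.find_spec (hex p)
      refine lv_eq (fun i hi => ?_) (h2.resolve_right h)
      have h3 := Nat.find_min (hex p) hi
      push Not at h3
      exact h3.1
  rw [h1]
  refine measurable_find _ fun k => ?_
  have h2 : {p | xx p k ≠ d j k ∨ ∀ m, xx p m = d j m} =
      {p | xx p k = d j k}ᶜ ∪ ⋂ m, {p | xx p m = d j m} := by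
    ext p
    simp
  rw [h2]
  exact (hm k).compl.union (MeasurableSet.iInter hm)

theorem measurable_Jn (d : ℕ → (ℕ → Bool)) (hx : Measurable xx)
    (hb : ∀ k, Measurable fun p => bb p k) (n : ℕ) :
    Measurable fun p => Jn d (bb p) (xx p) n := by
  induction n with
  | zero => exact hb _
  | succ n ih =>
    have h1 : ∀ j, Measurable fun p => bb p (Encodable.encode (pre (xx p) (lv d j (xx p) + 1))) := by
      intro j
      refine measurable_eval (c := fun p => Encodable.encode (pre (xx p) (lv d j (xx p) + 1)))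
        (B := bb) ?_ hb
      refine measurable_eval (c := fun p => lv d j (xx p))
        (B := fun p l => Encodable.encode (pre (xx p) (l + 1))) (measurable_lv d hx j) fun l => ?_
      have h2 : Continuous fun x : ℕ → Bool => Encodable.encode (pre x (l + 1)) :=
        continuous_of_loc ((loc_pre (fun x : ℕ → Bool => x) (l + 1)).map Encodable.encode)
      exact h2.measurable.comp hx
    exact measurable_eval (c := fun p => Jn d (bb p) (xx p) n)
      (B := fun p m => (Finset.range (m + 1)).sup fun j =>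
        bb p (Encodable.encode (pre (xx p) (lv d j (xx p) + 1)))) ih
      fun m => measurable_sup h1 (m + 1)

theorem measurable_psi (d : ℕ → (ℕ → Bool)) (hx : Measurable xx)
    (hb : ∀ k, Measurable fun p => bb p k) (n : ℕ) :
    Measurable fun p => psi d (bb p) (xx p) n :=
  measurable_eval (c := fun p => Jn d (bb p) (xx p) n)
    (B := fun p m => (Finset.range (m + 1)).sup fun j => lv d j (xx p))
    (measurable_Jn d hx hb n) fun m => measurable_sup (fun j => measurable_lv d hx j) (m + 1)

end Pool.Agent.Helper15UN
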