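import Mathlib
import Pool.Agent.Helper15_UN.Leave

/-!
# A point that leaves the members of a dense sequence late
-/

set_option autoImplicit false

namespace Pool.Agent.Helper15UN

open MeasureTheory Topology Set Pool.Agent.Helper25TD Pool.Agent.Helper56WN
open Pool.Agent.Helper55AX (length_pre)

theorem exists_antitone {Y : Type*} [TopologicalSpace Y] {M : Set Y} (hM : IsMeagre M) :
    ∃ V : ℕ → Set Y, (∀ n, IsOpen (V n)) ∧ (∀ n, Dense (V n)) ∧ Antitone V ∧
      ∀ y, (∀ n, y ∈ V n) → y ∉ M := by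
  obtain ⟨S, h1, h2, h3, h4⟩ := mem_residual_iff.1 hM
  obtain ⟨T, hT⟩ := (h3.insert univ).exists_eq_range (insert_nonempty _ _)
  have hTo : ∀ n, IsOpen (T n) := by
    intro n
    have h5 : T n ∈ insert univ S := by
      rw [hT]
      exact mem_range_self n
    rcases mem_insert_iff.1 h5 with h6 | h6
    · rw [h6]
      exact isOpen_univ
    · exact h1 _ h6
  have hTd : ∀ n, Dense (T n) := by
    intro n
    have h5 : T n ∈ insert univ S := by
      rw [hT]
      exact mem_range_self n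
    rcases mem_insert_iff.1 h5 with h6 | h6
    · rw [h6]
      exact dense_univ
    · exact h2 _ h6
  let V : ℕ → Set Y := fun n => Nat.rec (T 0) (fun n W => W ∩ T (n + 1)) n
  have hV : ∀ n, V (n + 1) = V n ∩ T (n + 1) := fun n => rfl
  have hVo : ∀ n, IsOpen (V n) := by
    intro n
    induction n with
    | zero => exact hTo 0
    | succ n ih =>
      rw [hV]
      exact ih.inter (hTo _)
  have hVd : ∀ n, Dense (V n) := by
    intro n
    induction n with
    | zero => exact hTd 0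
    | succ n ih =>
      rw [hV]
      exact ih.inter_of_isOpen_left (hTd _) (hVo n)
  have hVT : ∀ n, V n ⊆ T n := by
    intro n
    cases n with
    | zero => exact subset_rfl
    | succ n =>
      rw [hV]
      exact inter_subset_right
  refine ⟨V, hVo, hVd, antitone_nat_of_succ_le fun n => ?_, fun y hy => ?_⟩
  · rw [hV]
    exact inter_subset_left
  · refine h4 (mem_sInter.2 fun t ht => ?_)
    have h5 : t ∈ insert univ S := mem_insert_of_mem _ ht
    rw [hT] at h5
    obtain ⟨n, rfl⟩ := h5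
    exact hVT n (hy n)

theorem init_pre_iff {x y : ℕ → Bool} {n : ℕ} : Init (pre x n) y ↔ ∀ i < n, y i = x i := by
  have h1 : ∀ i < n, (pre x n).getD i false = x i := by
    intro i hi
    simp [pre, List.getD_eq_getElem?_getD, hi]
  constructor
  · intro h i hi
    rw [← h1 i hi]
    exact h i (by rwa [length_pre])
  · intro h i hi
    rw [length_pre] at hi
    rw [h1 i hi]
    exact h i hi

theorem pre_congr {x y : ℕ → Bool} {n : ℕ} (h : ∀ i < n, y i = x i) : pre y n = pre x n := by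
  induction n with
  | zero => rfl
  | succ n ih =>
    rw [pre_succ, pre_succ, ih fun i hi => h i (hi.trans (Nat.lt_succ_self n)),
      h n (Nat.lt_succ_self n)]

theorem isClosed_init (s : List Bool) : IsClosed {x : ℕ → Bool | Init s x} := by
  have h1 : {x : ℕ → Bool | Init s x} =
      ⋂ j : ℕ, ⋂ (_ : j < s.length), (fun x : ℕ → Bool => x j) ⁻¹' {s.getD j false} := by
    ext x
    simp [Init]
  rw [h1]
  exact isClosed_iInter fun j => isClosed_iInter fun _ =>
    isClosed_singleton.preimage (continuous_apply j)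

variable {P : Set (ℕ → Bool)}

theorem exists_agree {O : Set P} (hO : IsOpen O) {p : P} (hp : p ∈ O) :
    ∃ m, ∀ q : P, (∀ i < m, q.1 i = p.1 i) → q ∈ O := by
  obtain ⟨W, hW, rfl⟩ := isOpen_induced_iff.1 hO
  obtain ⟨m, hm⟩ := Pool.Agent.Helper15DD.exists_pre hW hp
  exact ⟨m, fun q hq => hm m le_rfl q.1 (init_pre_iff.2 hq)⟩

/-- **The construction.** -/
theorem exists_leave (hP : IsClosed P) {d : ℕ → (ℕ → Bool)} (hd : ∀ j, d j ∈ P)
    (hdense : P ⊆ closure (range d)) {O : Set P} (hO : IsOpen O) (hne : O.Nonempty)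
    {V : ℕ → Set P} (hVo : ∀ n, IsOpen (V n)) (hVd : ∀ n, Dense (V n)) (hV : Antitone V)
    (hiso : ∀ j, (⟨d j, hd j⟩ : P) ∈ O → ∀ m, ∃ q : P, (∀ i < m, q.1 i = d j i) ∧ q.1 ≠ d j) :
    ∃ b : ℕ → ℕ, ∀ h : ℕ → ℕ, ∃ p ∈ O, (∀ n, p ∈ V n) ∧ ∀ n, h n < psi d b p.1 n := by
  classical
  have hcs : CompactSpace P := isCompact_iff_compactSpace.1 hP.isCompact
  have h1 : ∀ s : List Bool, ∃ j, (∃ q ∈ O, Init s q.1) →
      ((⟨d j, hd j⟩ : P) ∈ O ∧ (⟨d j, hd j⟩ : P) ∈ V s.length) ∧ Init s (d j) := by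
    intro s
    by_cases hs : ∃ q ∈ O, Init s q.1
    · obtain ⟨q, hqO, hqs⟩ := hs
      have ho1 : IsOpen (O ∩ {q : P | Init s q.1}) :=
        hO.inter ((Pool.Agent.Helper15DD.isOpen_init s).preimage continuous_subtype_val)
      obtain ⟨p, hp1, hp2⟩ := (hVd s.length).inter_open_nonempty _ ho1 ⟨q, hqO, hqs⟩
      obtain ⟨m, hm⟩ := exists_agree (ho1.inter (hVo s.length)) (show p ∈ _ from ⟨hp1, hp2⟩)
      obtain ⟨y, hy, j, rfl⟩ := mem_closure_iff.1 (hdense p.2) {y | ∀ l < m, y l = p.1 l}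
        (isOpen_agree p.1 m) fun _ _ => rfl
      obtain ⟨⟨h3, h4⟩, h5⟩ := hm ⟨d j, hd j⟩ hy
      exact ⟨j, fun _ => ⟨⟨h3, h5⟩, h4⟩⟩
    · exact ⟨0, fun h => absurd h hs⟩
  choose jj hjj using h1
  refine ⟨fun n => ((Encodable.decode n : Option (List Bool)).map jj).getD 0, fun h => ?_⟩
  set b : ℕ → ℕ := fun n => ((Encodable.decode n : Option (List Bool)).map jj).getD 0 with hb
  have hbs : ∀ s : List Bool, b (Encodable.encode s) = jj s := by
    intro s
    simp [hb]
  have step : ∀ (n : ℕ) (s : {s : List Bool // ∃ q ∈ O, Init s q.1}),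
      ∃ s' : {s : List Bool // ∃ q ∈ O, Init s q.1}, s.1.length < s'.1.length ∧
        (∀ q : P, Init s'.1 q.1 → Init s.1 q.1) ∧
        ∀ q : P, Init s'.1 q.1 → q ∈ O ∧ q ∈ V s.1.length ∧ h n < lv d (jj s.1) q.1 ∧
          pre q.1 (lv d (jj s.1) q.1 + 1) = s'.1 := by
    rintro n ⟨s, hs⟩
    obtain ⟨⟨h2, h3⟩, h4⟩ := hjj s hs
    obtain ⟨m0, hm0⟩ := exists_agree (hO.inter (hVo s.length))
      (show (⟨d (jj s), hd (jj s)⟩ : P) ∈ _ from ⟨h2, h3⟩)
    obtain ⟨q0, hq1, hq2⟩ := hiso (jj s) h2 (max m0 (max s.length (h n + 1)))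
    set m := lv d (jj s) q0.1 with hm
    have h5 : max m0 (max s.length (h n + 1)) ≤ m := by
      by_contra hcon
      push Not at hcon
      exact lv_spec hq2 (hq1 _ hcon)
    have h6 : m0 ≤ m := (le_max_left _ _).trans h5
    have h7 : s.length ≤ m := (le_max_left _ _).trans ((le_max_right _ _).trans h5)
    have h8 : h n + 1 ≤ m := (le_max_right _ _).trans ((le_max_right _ _).trans h5)
    have h9 : ∀ q : P, Init (pre q0.1 (m + 1)) q.1 → ∀ i < m, q.1 i = d (jj s) i := by
      intro q hq i hi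
      rw [init_pre_iff.1 hq i (hi.trans (Nat.lt_succ_self m))]
      exact eq_of_lt_lv hi
    have h10 : ∀ q : P, Init (pre q0.1 (m + 1)) q.1 → q ∈ O ∩ V s.length := fun q hq =>
      hm0 q fun i hi => h9 q hq i (hi.trans_le h6)
    refine ⟨⟨pre q0.1 (m + 1), q0, (h10 q0 (init_pre _ _)).1, init_pre _ _⟩, ?_, ?_, ?_⟩
    · change s.length < (pre q0.1 (m + 1)).length
      rw [length_pre]
      omega
    · intro q hq i hi
      rw [h9 q hq i (hi.trans_le h7)]
      exact h4 i hi
    · intro q hq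
      have h11 : lv d (jj s) q.1 = m := by
        refine lv_eq (h9 q hq) ?_
        rw [init_pre_iff.1 hq m (Nat.lt_succ_self m)]
        exact lv_spec hq2
      refine ⟨(h10 q hq).1, (h10 q hq).2, ?_, ?_⟩
      · change h n < lv d (jj s) q.1
        rw [h11]
        omega
      · change pre q.1 (lv d (jj s) q.1 + 1) = pre q0.1 (m + 1)
        rw [h11]
        exact pre_congr (init_pre_iff.1 hq)
  choose F hF1 hF2 hF3 using step
  obtain ⟨q0, hq0⟩ := hne
  let s : ℕ → {s : List Bool // ∃ q ∈ O, Init s q.1} := fun n =>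
    Nat.rec ⟨[], q0, hq0, fun j hj => absurd hj (Nat.not_lt_zero j)⟩ F n
  have hs : ∀ n, s (n + 1) = F n (s n) := fun n => rfl
  have hlen : ∀ n, n ≤ (s n).1.length := by
    intro n
    induction n with
    | zero => exact Nat.zero_le _
    | succ n ih =>
      have h2 := hF1 n (s n)
      rw [← hs] at h2
      omega
  obtain ⟨p, hp⟩ := IsCompact.nonempty_iInter_of_sequence_nonempty_isCompact_isClosed
    (fun n => {q : P | Init (s n).1 q.1})
    (fun n q hq => by
      have h2 := hF2 n (s n) q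
      rw [← hs] at h2
      exact h2 hq)
    (fun n => by
      obtain ⟨q, -, hq⟩ := (s n).2
      exact ⟨q, hq⟩)
    (((isClosed_init (s 0).1).preimage continuous_subtype_val).isCompact)
    (fun n => (isClosed_init (s n).1).preimage continuous_subtype_val)
  rw [mem_iInter] at hp
  have h3 : ∀ n, p ∈ O ∧ p ∈ V (s n).1.length ∧ h n < lv d (jj (s n).1) p.1 ∧
      pre p.1 (lv d (jj (s n).1) p.1 + 1) = (s (n + 1)).1 := by
    intro n
    have h2 := hF3 n (s n) p
    rw [← hs] at h2
    exact h2 (hp (n + 1))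
  have h4 : ∀ n, jj (s n).1 ≤ Jn d b p.1 n := by
    intro n
    induction n with
    | zero =>
      change jj (s 0).1 ≤ b (Encodable.encode ([] : List Bool))
      rw [hbs]
      exact le_rfl
    | succ n ih =>
      have h5 := le_Jn_succ ih
      rw [(h3 n).2.2.2, hbs] at h5
      exact h5
  exact ⟨p, (h3 0).1, fun n => hV (hlen n) (h3 n).2.1,
    fun n => (h3 n).2.2.1.trans_le (lv_le_psi (h4 n))⟩

end Pool.Agent.Helper15UN
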