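import Mathlib
import Pool.Agent.Helper56_WN.Defs

/-!
# Families of null sets indexed by functions
-/

set_option autoImplicit false

namespace Pool.Agent.Helper15UN

open Pool.Agent.Helper25TD Pool.Agent.Helper56WN

/-- the set of all `y` that capture each set `E f` for which `f` is computable from `y` -/
def Cap (E : (ℕ → ℕ) → Set (ℕ → Bool)) : Set (ℕ → Bool) :=
  {y | ∀ f, TR y f → Captures y (E f)}

end Pool.Agent.Helper15UN
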