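import Mathlib
import Pool.Agent.Helper15_UN.Build
import Pool.Agent.Helper15_DD.Main

/-!
# Dominating images
-/

set_option autoImplicit false

namespace Pool.Agent.Helper15UN

open MeasureTheory Topology Set Pool.Agent.Helper25TD Pool.Agent.Helper56WN
open Pool.Agent.Helper15DD (Small Vs separation_dichotomy)
open Pool.Agent.Helper56WM (grf TR_of_grf)

variable {E D : Set (ℕ → Bool)} {d : ℕ → (ℕ → Bool)}

theorem stable_rel (h : ∀ b, ∃ h, Rel E d b h) : Stable (Rel E d) := by
  refine stable_of_mono (fun f g h hfg hg x hx N => ?_) h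
  obtain ⟨n, hn, hn'⟩ := hg x hx N
  exact ⟨n, hn, (psi_mono hfg n).trans hn'⟩

/-- `b` together with `z` -/
noncomputable def yb (z : ℕ → Bool) (b : ℕ → ℕ) : ℕ → Bool := join z (grf b)

theorem continuous_yb (z : ℕ → Bool) : Continuous (yb z) := by
  classical
  refine continuous_pi fun n => ?_
  unfold yb join
  by_cases hn : n % 2 = 0
  · simp only [hn, if_true]
    exact continuous_const
  · simp only [hn, if_false]
    unfold grf
    have h1 : Continuous fun v : ℕ => decide (v = (n / 2).unpair.2) :=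
      continuous_of_discreteTopology
    exact h1.comp (continuous_apply (n / 2).unpair.1)

/-- all functions computable from `z` and `b` are below `psi d b x` almost everywhere -/
def Above (z : ℕ → Bool) (d : ℕ → (ℕ → Bool)) (b : ℕ → ℕ) (x : ℕ → Bool) : Prop :=
  ∀ c : OCode, (∀ k, ∃ v, v ∈ eval (chi (yb z b)) c k) →
    ∃ N, ∀ n ≥ N, ∀ v, v ∈ eval (chi (yb z b)) c n → v < psi d b x n

theorem measurableSet_above (z : ℕ → Bool) (d : ℕ → (ℕ → Bool)) (P : Set (ℕ → Bool)) :
    MeasurableSet {q : (ℕ → ℕ) × P | Above z d q.1 q.2.1} := by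
  have hev : ∀ (c : OCode) (k v : ℕ),
      MeasurableSet {q : (ℕ → ℕ) × P | v ∈ eval (chi (yb z q.1)) c k} := by
    intro c k v
    have h1 : IsOpen {y : ℕ → Bool | v ∈ eval (chi y) c k} := by
      rw [isOpen_iff_forall_mem_open]
      intro y hy
      obtain ⟨N, hN⟩ := use_principle y c k v hy
      exact ⟨{y' | ∀ j < N, y' j = y j}, fun y' hy' => hN y' hy', isOpen_agree y N,
        fun _ _ => rfl⟩
    exact (h1.preimage ((continuous_yb z).comp continuous_fst)).measurableSet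
  have hps : ∀ n v : ℕ, MeasurableSet {q : (ℕ → ℕ) × P | v < psi d q.1 q.2.1 n} := by
    intro n v
    have h1 : Measurable fun q : (ℕ → ℕ) × P => psi d q.1 q.2.1 n :=
      measurable_psi (xx := fun q : (ℕ → ℕ) × P => q.2.1) (bb := fun q : (ℕ → ℕ) × P => q.1) d
        (measurable_subtype_coe.comp measurable_snd)
        (fun k => (measurable_pi_apply k).comp measurable_fst) n
    exact h1 (measurableSet_Ioi (a := v))
  have h1 : {q : (ℕ → ℕ) × P | Above z d q.1 q.2.1} = ⋂ c : OCode,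
      ((⋂ k : ℕ, ⋃ v : ℕ, {q : (ℕ → ℕ) × P | v ∈ eval (chi (yb z q.1)) c k})ᶜ ∪
        ⋃ N : ℕ, ⋂ n : ℕ, ⋂ (_ : n ≥ N), ⋂ v : ℕ,
          ({q : (ℕ → ℕ) × P | v ∈ eval (chi (yb z q.1)) c n}ᶜ ∪
            {q : (ℕ → ℕ) × P | v < psi d q.1 q.2.1 n})) := by
    ext q
    simp only [Above, mem_setOf_eq, mem_iInter, mem_union, mem_compl_iff, mem_iUnion,
      imp_iff_not_or]
  rw [h1]
  refine MeasurableSet.iInter fun c => MeasurableSet.union ?_ ?_
  · exact (MeasurableSet.iInter fun k => MeasurableSet.iUnion fun v => hev c k v).compl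
  · exact MeasurableSet.iUnion fun N => MeasurableSet.iInter fun n => MeasurableSet.iInter fun _ =>
      MeasurableSet.iInter fun v => (hev c n v).compl.union (hps n v)

theorem analyticSet_above (z : ℕ → Bool) (d : ℕ → (ℕ → Bool)) {P : Set (ℕ → Bool)}
    (hP : IsClosed P) : AnalyticSet {p : P | ∃ b, Above z d b p.1} := by
  have : StandardBorelSpace P := hP.measurableSet.standardBorel
  have h1 := (measurableSet_above z d P).analyticSet_image
    (f := fun q : (ℕ → ℕ) × P => q.2) measurable_snd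
  have h2 : (fun q : (ℕ → ℕ) × P => q.2) '' {q : (ℕ → ℕ) × P | Above z d q.1 q.2.1} =
      {p : P | ∃ b, Above z d b p.1} := by
    ext p
    constructor
    · rintro ⟨q, hq, rfl⟩
      exact ⟨q.1, hq⟩
    · rintro ⟨b, hb⟩
      exact ⟨(b, p), hb, rfl⟩
  rwa [h2] at h1

/-- a sequence that is dense in a nonempty set -/
theorem exists_dense_seq {S : Set (ℕ → Bool)} (hS : S.Nonempty) :
    ∃ d : ℕ → (ℕ → Bool), (∀ j, d j ∈ S) ∧ S ⊆ closure (range d) := by
  have : Nonempty S := hS.to_subtype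
  refine ⟨fun j => (TopologicalSpace.denseSeq S j).1, fun j => (TopologicalSpace.denseSeq S j).2,
    fun y hy => ?_⟩
  rw [mem_closure_iff]
  intro O hO hyO
  obtain ⟨-, hx, j, rfl⟩ := (TopologicalSpace.denseRange_denseSeq S).inter_open_nonempty
    (Subtype.val ⁻¹' O) (hO.preimage continuous_subtype_val) ⟨⟨y, hy⟩, hyO⟩
  exact ⟨_, hx, j, rfl⟩

/-- **Small sets and dominating images.** -/
theorem small_or_dominating (hED : Disjoint E D)
    (h1 : WinsI (Vs {C | IsClosed C ∧ Disjoint C D} E) ∨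
      WinsII (Vs {C | IsClosed C ∧ Disjoint C D} E))
    (h2 : ∀ d : ℕ → (ℕ → Bool), (∀ j, d j ∈ D) →
      WinsI (Answers (Rel E d)) ∨ WinsII (Answers (Rel E d))) :
    Small {C | IsClosed C ∧ Disjoint C D} E ∨
      ∃ (d : ℕ → (ℕ → Bool)) (b : ℕ → ℕ), (∀ j, d j ∈ D) ∧
        ∀ h : ℕ → ℕ, ∃ x ∈ E, ∃ N, ∀ n ≥ N, h n < psi d b x n := by
  classical
  by_contra hcon
  rw [not_or] at hcon
  obtain ⟨hns, hnd⟩ := hcon
  push Not at hnd
  obtain ⟨P, hP, hPne, hPD, hPE⟩ := separation_dichotomy D h1 hns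
  have hne : (P ∩ D).Nonempty := by
    obtain ⟨x, hx⟩ := hPne
    exact closure_nonempty_iff.1 ⟨x, hPD hx⟩
  obtain ⟨d, hd, hdd⟩ := exists_dense_seq hne
  have hdP : ∀ j, d j ∈ P := fun j => (hd j).1
  have hdD : ∀ j, d j ∈ D := fun j => (hd j).2
  have hdense : P ⊆ closure (range d) := by
    refine hPD.trans ?_
    have h3 := closure_mono hdd
    rwa [closure_closure] at h3
  obtain ⟨z, hz⟩ := choice (stable_rel (fun b => hnd d b hdD)) (h2 d hdD)
  have hdisj : Disjoint {p : P | (p : ℕ → Bool) ∈ E} {p : P | ∃ b, Above z d b p.1} := by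
    rw [disjoint_left]
    rintro p hp ⟨b, hb⟩
    obtain ⟨h, hh, hR⟩ := hz (yb z b) (TLE.join_left _ _) b (TR_of_grf (TLE.join_right _ _))
    obtain ⟨c, hc⟩ := exists_code hh
    have hcv : ∀ k, h k ∈ eval (chi (yb z b)) c k := by
      intro k
      rw [hc]
      exact Part.mem_some _
    obtain ⟨N, hN⟩ := hb c fun k => ⟨h k, hcv k⟩
    obtain ⟨n, hn, hn'⟩ := hR p.1 hp N
    exact absurd (hN n hn (h n) (hcv n)) (not_lt.2 hn')
  obtain ⟨O, hO, hOne, hQO, hS⟩ := exists_open (analyticSet_above z d hP) hPE hdisj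
  obtain ⟨V, hVo, hVd, hVa, hVQ⟩ := exists_antitone hQO
  obtain ⟨b, hb⟩ := exists_leave hP hdP hdense hO hOne hVo hVd hVa fun j hj m => by
    by_contra hno
    push Not at hno
    refine hS {q : P | ∀ i < m, q.1 i = d j i}
      ((isOpen_agree (d j) m).preimage continuous_subtype_val) ⟨⟨d j, hdP j⟩, fun _ _ => rfl, hj⟩ ?_
    refine (IsMeagre.empty : IsMeagre (∅ : Set P)).mono ?_
    rintro q ⟨hqE, hq⟩
    have h3 : q.1 = d j := hno q hq
    have h4 : d j ∈ E := by
      rw [← h3]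
      exact hqE
    exact (disjoint_left.1 hED h4 (hdD j)).elim
  -- a function that dominates all functions computable from `yb z b`
  have : Nonempty OCode := ⟨OCode.zero⟩
  obtain ⟨ec, hec⟩ := exists_surjective_nat OCode
  let val : OCode → ℕ → ℕ := fun c n =>
    if h : ∃ v, v ∈ eval (chi (yb z b)) c n then Classical.choose h else 0
  have hval : ∀ c n v, v ∈ eval (chi (yb z b)) c n → v = val c n := by
    intro c n v hv
    have h3 : ∃ v, v ∈ eval (chi (yb z b)) c n := ⟨v, hv⟩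
    have h4 : val c n = Classical.choose h3 := dif_pos h3
    rw [h4]
    exact Part.mem_unique hv (Classical.choose_spec h3)
  obtain ⟨p, hpO, hpV, hpsi⟩ := hb fun n => (Finset.range (n + 1)).sup fun i => val (ec i) n
  refine hVQ p hpV ⟨⟨b, fun c _ => ?_⟩, hpO⟩
  obtain ⟨i, rfl⟩ := hec c
  refine ⟨i, fun n hn v hv => ?_⟩
  rw [hval _ _ _ hv]
  refine lt_of_le_of_lt ?_ (hpsi n)
  exact Finset.le_sup (f := fun i => val (ec i) n) (Finset.mem_range.2 (Nat.lt_succ_of_le hn))

end Pool.Agent.Helper15UN
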