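import Mathlib
import Pool.Agent.Helper15_UN.Main

/-!
# Fast growing functions that do not cover a given real
-/

set_option autoImplicit false

namespace Pool.Agent.Helper15UN

open MeasureTheory Set Filter Pool.Agent.Helper25TD Pool.Agent.Helper56WN
open Pool.Agent.Helper56WM (grf TR_of_grf)
open scoped ENNReal

/-! ### a maximality principle -/

theorem exists_stable_one {P : Type*} [Preorder P] {J : P → ℝ≥0∞} (hJ : Monotone J)
    {B : ℝ≥0∞} (hB : B ≠ ⊤) (hJB : ∀ p, J p ≤ B)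
    (hchain : ∀ y : ℕ → P, Monotone y → ∃ z, ∀ n, y n ≤ z) (p0 : P) :
    ∃ p ≥ p0, ∀ q ≥ p, J q = J p := by
  have hstep : ∀ (n : ℕ) (p : P), ∃ q ≥ p, ∀ r ≥ p, J r ≤ J q + ((n : ℝ≥0∞) + 1)⁻¹ := by
    intro n p
    by_contra hcon
    push Not at hcon
    have hδ : ((n : ℝ≥0∞) + 1)⁻¹ ≠ 0 := ENNReal.inv_ne_zero.2 (by simp)
    -- a sequence on which `J` grows by a fixed amount
    choose! F hF1 hF2 using hcon
    have h1 : ∀ m : ℕ, ∃ q ≥ p, (m : ℝ≥0∞) * ((n : ℝ≥0∞) + 1)⁻¹ ≤ J q := by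
      intro m
      induction m with
      | zero => exact ⟨p, le_rfl, by simp⟩
      | succ m ih =>
        obtain ⟨q, hq, hq'⟩ := ih
        refine ⟨F q, hF1 q hq, ?_⟩
        push_cast
        rw [add_mul, one_mul]
        exact (add_le_add_left hq' _).trans (hF2 q hq).le
    obtain ⟨m, hm⟩ := ENNReal.exists_nat_mul_gt hδ hB
    obtain ⟨q, -, hq⟩ := h1 m
    exact absurd (hm.trans_le (hq.trans (hJB q))) (lt_irrefl _)
  choose F hF1 hF2 using hstep
  let y : ℕ → P := fun n => Nat.rec p0 F n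
  have hy : ∀ n, y (n + 1) = F n (y n) := fun n => rfl
  have hmono : Monotone y := monotone_nat_of_le_succ fun n => by
    rw [hy]
    exact hF1 n (y n)
  obtain ⟨z, hz⟩ := hchain y hmono
  refine ⟨z, hz 0, fun q hq => le_antisymm ?_ (hJ hq)⟩
  have h1 : ∀ n : ℕ, J q ≤ J z + ((n : ℝ≥0∞) + 1)⁻¹ := by
    intro n
    refine (hF2 n (y n) q ((hz n).trans hq)).trans (add_le_add_left (hJ ?_) _)
    rw [← hy]
    exact hz (n + 1)
  have h2 : Tendsto (fun n : ℕ => J z + ((n : ℝ≥0∞) + 1)⁻¹) atTop (nhds (J z + 0)) := by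
    refine Tendsto.const_add _ ?_
    have h3 := (tendsto_add_atTop_iff_nat 1).2 ENNReal.tendsto_inv_nat_nhds_zero
    simpa using h3
  rw [add_zero] at h2
  exact ge_of_tendsto' h2 h1

theorem exists_stable {P : Type*} [Preorder P] {ι : Type*} [Countable ι] [Nonempty ι]
    {J : ι → P → ℝ≥0∞} (hJ : ∀ i, Monotone (J i)) {B : ℝ≥0∞} (hB : B ≠ ⊤)
    (hJB : ∀ i p, J i p ≤ B) (hchain : ∀ y : ℕ → P, Monotone y → ∃ z, ∀ n, y n ≤ z) (p0 : P) :
    ∃ p ≥ p0, ∀ q ≥ p, ∀ i, J i q = J i p := by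
  obtain ⟨e, he⟩ := exists_surjective_nat ι
  have hstep : ∀ (n : ℕ) (p : P), ∃ q ≥ p, ∀ r ≥ q, J (e n) r = J (e n) q := fun n p =>
    exists_stable_one (hJ (e n)) hB (hJB (e n)) hchain p
  choose F hF1 hF2 using hstep
  let y : ℕ → P := fun n => Nat.rec p0 F n
  have hy : ∀ n, y (n + 1) = F n (y n) := fun n => rfl
  have hmono : Monotone y := monotone_nat_of_le_succ fun n => by
    rw [hy]
    exact hF1 n (y n)
  obtain ⟨z, hz⟩ := hchain y hmono
  refine ⟨z, hz 0, fun q hq i => ?_⟩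
  obtain ⟨n, rfl⟩ := he i
  have h1 : F n (y n) ≤ z := by
    rw [← hy]
    exact hz (n + 1)
  rw [hF2 n (y n) q (h1.trans hq), hF2 n (y n) z h1]

/-! ### trees with large splitting that avoid a set of small measure -/

section

variable {X : Type*} [MeasurableSpace X]

/-- the points that belong to almost all sets at the successors of a node -/
def Der (Y : List ℕ → Set X) (s : List ℕ) : Set X := {x | ∃ m, ∀ k ≥ m, x ∈ Y (s ++ [k])}

theorem Der_mono {Y Z : List ℕ → Set X} (h : ∀ s, Y s ⊆ Z s) (s : List ℕ) :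
    Der Y s ⊆ Der Z s := fun _ ⟨m, hm⟩ => ⟨m, fun k hk => h _ (hm k hk)⟩

theorem Der_eq (Y : List ℕ → Set X) (s : List ℕ) :
    Der Y s = ⋃ m, ⋂ k, ⋂ (_ : m ≤ k), Y (s ++ [k]) := by
  ext x
  simp [Der]

theorem measurableSet_Der {Y : List ℕ → Set X} (h : ∀ s, MeasurableSet (Y s)) (s : List ℕ) :
    MeasurableSet (Der Y s) := by
  rw [Der_eq]
  exact MeasurableSet.iUnion fun m => MeasurableSet.iInter fun k => MeasurableSet.iInter fun _ => h _

theorem measure_Der_le {μ : Measure X} {Y : List ℕ → Set X} {ε : ℝ≥0∞} (h : ∀ s, μ (Y s) ≤ ε)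
    (s : List ℕ) : μ (Der Y s) ≤ ε := by
  rw [Der_eq]
  have hmono : Monotone fun m => ⋂ k, ⋂ (_ : m ≤ k), Y (s ++ [k]) := by
    intro m m' hmm x hx
    simp only [mem_iInter] at hx ⊢
    exact fun k hk => hx k (hmm.trans hk)
  rw [hmono.measure_iUnion]
  refine iSup_le fun m => (measure_mono ?_).trans (h (s ++ [m]))
  intro x hx
  simp only [mem_iInter] at hx
  exact hx m le_rfl

/-- the families between `G` and the family of all points that cannot avoid `G` -/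
structure Sys (μ : Measure X) (G : List ℕ → Set X) (ε : ℝ≥0∞) (Y : List ℕ → Set X) : Prop where
  meas : ∀ s, MeasurableSet (Y s)
  le : ∀ s, μ (Y s) ≤ ε
  base : ∀ s, G s ⊆ Y s
  der : ∀ s, Y s ⊆ G s ∪ Der Y s

variable {μ : Measure X} {G : List ℕ → Set X} {ε : ℝ≥0∞}

theorem Sys.derive (hG : ∀ s k, G s ⊆ G (s ++ [k])) {Y : List ℕ → Set X} (hY : Sys μ G ε Y) :
    Sys μ G ε (Der Y) := by
  have h1 : ∀ s, G s ⊆ Der Y s := fun s x hx => ⟨0, fun k _ => hY.base _ (hG s k hx)⟩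
  have h2 : ∀ s, Y s ⊆ Der Y s := fun s x hx => (hY.der s hx).elim (fun h => h1 s h) id
  exact ⟨measurableSet_Der hY.meas, measure_Der_le hY.le, h1,
    fun s x hx => Or.inr (Der_mono h2 s hx)⟩

theorem Sys.subset_Der (hG : ∀ s k, G s ⊆ G (s ++ [k])) {Y : List ℕ → Set X}
    (hY : Sys μ G ε Y) (s : List ℕ) : Y s ⊆ Der Y s := fun _ hx =>
  (hY.der s hx).elim (fun h => ⟨0, fun k _ => hY.base _ (hG s k h)⟩) id

/-- **Trees with large splitting.** -/
theorem exists_avoid [IsFiniteMeasure μ] (hGm : ∀ s, MeasurableSet (G s))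
    (hG : ∀ s k, G s ⊆ G (s ++ [k])) (hGε : ∀ s, μ (G s) ≤ ε) :
    ∃ A : Set X, μ A ≤ ε ∧ ∀ x, x ∉ A → ∀ g : ℕ → ℕ, ∃ f : ℕ → ℕ, g ≤ f ∧
      ∀ n, x ∉ G (ini f n) := by
  classical
  let P := {Y : List ℕ → Set X // Sys μ G ε Y}
  letI : Preorder P := Preorder.lift fun Y => fun s => Y.1 s
  have hchain : ∀ y : ℕ → P, Monotone y → ∃ z, ∀ n, y n ≤ z := by
    intro y hy
    have hmono : ∀ s, Monotone fun n => (y n).1 s := fun s m n hmn => hy hmn s
    refine ⟨⟨fun s => ⋃ n, (y n).1 s, ⟨fun s => MeasurableSet.iUnion fun n => (y n).2.meas s,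
      fun s => ?_, fun s => ?_, fun s => ?_⟩⟩, fun n s => subset_iUnion (fun n => (y n).1 s) n⟩
    · rw [(hmono s).measure_iUnion]
      exact iSup_le fun n => (y n).2.le s
    · exact ((y 0).2.base s).trans (subset_iUnion (fun n => (y n).1 s) 0)
    · refine iUnion_subset fun n => ((y n).2.der s).trans (union_subset_union_right _ ?_)
      exact Der_mono (fun t => subset_iUnion (fun n => (y n).1 t) n) s
  obtain ⟨Y, -, hY⟩ := exists_stable (P := P) (ι := List ℕ) (J := fun s Y => μ (Y.1 s))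
    (fun s Y Z h => measure_mono ((show ∀ s, Y.1 s ⊆ Z.1 s from h) s)) (measure_ne_top μ univ)
    (fun s Y => measure_mono (subset_univ _)) hchain
    ⟨G, ⟨hGm, hGε, fun s => subset_rfl, fun s => subset_union_left⟩⟩
  have hle : Y ≤ ⟨Der Y.1, Y.2.derive hG⟩ := fun s => Y.2.subset_Der hG s
  have hnull : ∀ s, μ (Der Y.1 s \ Y.1 s) = 0 := by
    intro s
    have h1 := hY ⟨Der Y.1, Y.2.derive hG⟩ hle s
    simp only at h1
    rw [measure_diff (Y.2.subset_Der hG s) (Y.2.meas s).nullMeasurableSet (measure_ne_top _ _), h1,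
      tsub_self]
  refine ⟨Y.1 [] ∪ ⋃ s, (Der Y.1 s \ Y.1 s), ?_, fun x hx g => ?_⟩
  · refine (measure_union_le _ _).trans ?_
    rw [measure_iUnion_null hnull, add_zero]
    exact Y.2.le []
  · rw [mem_union, not_or, mem_iUnion, not_exists] at hx
    have h1 : ∀ s, x ∉ Y.1 s → ∀ m, ∃ k ≥ m, x ∉ Y.1 (s ++ [k]) := by
      intro s hs m
      by_contra hcon
      push Not at hcon
      exact hx.2 s ⟨⟨m, hcon⟩, hs⟩
    have h2 : ∀ (n : ℕ) (s : {s : List ℕ // x ∉ Y.1 s}), ∃ k ≥ g n, x ∉ Y.1 (s.1 ++ [k]) :=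
      fun n s => h1 s.1 s.2 (g n)
    choose κ hκ1 hκ2 using h2
    let s : ℕ → {s : List ℕ // x ∉ Y.1 s} := fun n =>
      Nat.rec ⟨[], hx.1⟩ (fun n s => ⟨s.1 ++ [κ n s], hκ2 n s⟩) n
    have hs : ∀ n, (s (n + 1)).1 = (s n).1 ++ [κ n (s n)] := fun n => rfl
    have h3 : ∀ n, ini (fun n => κ n (s n)) n = (s n).1 := by
      intro n
      induction n with
      | zero => rfl
      | succ n ih => rw [ini_succ, ih, hs]
    refine ⟨fun n => κ n (s n), fun n => hκ1 n (s n), fun n hn => (s n).2 ?_⟩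
    rw [h3] at hn
    exact Y.2.base _ hn

end

/-! ### the null sets coded by reals computable from a fast growing function -/

/-- every oracle given by a function through the node `s` makes the functional `c` output the code
of the list `u` at `k` -/
def Forced (z : ℕ → Bool) (c : OCode) (k : ℕ) (u : List (List Bool)) (s : List ℕ) : Prop :=
  ∀ f ∈ cylN s, Encodable.encode u ∈ eval (chi (yb z f)) c k

/-- the open set forced at a node -/
def GG (z : ℕ → Bool) (ec : ℕ → OCode) (c : ℕ) (s : List ℕ) : Set (ℕ → Bool) :=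
  ⋃ q : ℕ × ℕ, {x | ∃ u, wt u ≤ (1 / 4) ^ (q.1 + c + q.2) ∧
    Forced z (ec q.1) (q.1 + c + q.2) u s ∧ x ∈ Cov u}

theorem cylN_append (s : List ℕ) (k : ℕ) : cylN (s ++ [k]) ⊆ cylN s := by
  intro f hf
  have h1 : ini f (s ++ [k]).length = s ++ [k] := hf
  rw [List.length_append, List.length_singleton, ini_succ] at h1
  exact (List.append_inj' h1 rfl).1

theorem cylN_nonempty (s : List ℕ) : (cylN s).Nonempty := by
  refine ⟨fun i => s.getD i 0, ?_⟩
  change (List.range s.length).map (fun i => s.getD i 0) = s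
  refine List.ext_getElem (by simp) fun i h1 h2 => ?_
  simp [List.getD_eq_getElem?_getD, h2]

theorem GG_mono (z : ℕ → Bool) (ec : ℕ → OCode) (c : ℕ) (s : List ℕ) (k : ℕ) :
    GG z ec c s ⊆ GG z ec c (s ++ [k]) := by
  refine iUnion_mono fun q => ?_
  rintro x ⟨u, h1, h2, h3⟩
  exact ⟨u, h1, fun f hf => h2 f (cylN_append s k hf), h3⟩

theorem measurableSet_GG (z : ℕ → Bool) (ec : ℕ → OCode) (c : ℕ) (s : List ℕ) :
    MeasurableSet (GG z ec c s) := by
  refine MeasurableSet.iUnion fun q => ?_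
  have h1 : {x | ∃ u, wt u ≤ (1 / 4) ^ (q.1 + c + q.2) ∧
      Forced z (ec q.1) (q.1 + c + q.2) u s ∧ x ∈ Cov u} =
      ⋃ u : List (List Bool), ⋃ (_ : wt u ≤ (1 / 4) ^ (q.1 + c + q.2) ∧
        Forced z (ec q.1) (q.1 + c + q.2) u s), Cov u := by
    ext x
    simp [and_assoc]
  rw [h1]
  exact MeasurableSet.iUnion fun u => MeasurableSet.iUnion fun _ => measurableSet_cov u

theorem tsum_bound (c : ℕ) :
    (∑' q : ℕ × ℕ, ENNReal.ofReal ((1 / 4 : ℝ) ^ (q.1 + c + q.2))) ≤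
      ENNReal.ofReal (2 * (1 / 4) ^ c) := by
  have h1 : ∀ q : ℕ × ℕ, ENNReal.ofReal ((1 / 4 : ℝ) ^ (q.1 + c + q.2)) =
      ENNReal.ofReal ((1 / 4) ^ c) * (ENNReal.ofReal ((1 / 4) ^ q.1) *
        ENNReal.ofReal ((1 / 4) ^ q.2)) := by
    intro q
    rw [← ENNReal.ofReal_mul (by positivity), ← ENNReal.ofReal_mul (by positivity)]
    congr 1
    ring
  have h2 : (∑' n : ℕ, ENNReal.ofReal ((1 / 4 : ℝ) ^ n)) = ENNReal.ofReal (4 / 3) := by
    rw [← ENNReal.ofReal_tsum_of_nonneg (fun n => by positivity)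
      (summable_geometric_of_lt_one (by norm_num) (by norm_num)),
      tsum_geometric_of_lt_one (by norm_num) (by norm_num)]
    norm_num
  rw [tsum_congr h1, ENNReal.tsum_mul_left, ENNReal.tsum_prod (f := fun a b : ℕ =>
    ENNReal.ofReal ((1 / 4 : ℝ) ^ a) * ENNReal.ofReal ((1 / 4) ^ b))]
  simp only [ENNReal.tsum_mul_left]
  rw [h2, ENNReal.tsum_mul_right, h2, ← ENNReal.ofReal_mul (by positivity),
    ← ENNReal.ofReal_mul (by positivity)]
  refine ENNReal.ofReal_le_ofReal ?_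
  have h3 : (0 : ℝ) < (1 / 4) ^ c := by positivity
  nlinarith

theorem coin_GG_le (z : ℕ → Bool) (ec : ℕ → OCode) (c : ℕ) (s : List ℕ) :
    coin (GG z ec c s) ≤ ENNReal.ofReal (2 * (1 / 4) ^ c) := by
  refine (measure_iUnion_le _).trans ((ENNReal.tsum_le_tsum fun q => ?_).trans (tsum_bound c))
  by_cases hex : ∃ u, wt u ≤ (1 / 4) ^ (q.1 + c + q.2) ∧
      Forced z (ec q.1) (q.1 + c + q.2) u s
  · obtain ⟨u, hu1, hu2⟩ := hex
    have h1 : {x | ∃ u, wt u ≤ (1 / 4) ^ (q.1 + c + q.2) ∧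
        Forced z (ec q.1) (q.1 + c + q.2) u s ∧ x ∈ Cov u} ⊆ Cov u := by
      rintro x ⟨v, -, hv2, hv3⟩
      obtain ⟨f, hf⟩ := cylN_nonempty s
      have h2 : v = u := Encodable.encode_injective (Part.mem_unique (hv2 f hf) (hu2 f hf))
      rwa [h2] at hv3
    exact (measure_mono h1).trans ((coin_cov_le u).trans (ENNReal.ofReal_le_ofReal hu1))
  · have h1 : {x | ∃ u, wt u ≤ (1 / 4) ^ (q.1 + c + q.2) ∧
        Forced z (ec q.1) (q.1 + c + q.2) u s ∧ x ∈ Cov u} = ∅ := by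
      rw [eq_empty_iff_forall_notMem]
      rintro x ⟨v, hv1, hv2, -⟩
      exact hex ⟨v, hv1, hv2⟩
    rw [h1, measure_empty]
    exact zero_le

/-- **The key lemma.** -/
theorem coin_covered (z : ℕ → Bool) :
    coin {x | ∃ g : ℕ → ℕ, ∀ f : ℕ → ℕ, g ≤ f → x ∈ NN (yb z f)} = 0 := by
  have : Nonempty OCode := ⟨OCode.zero⟩
  obtain ⟨ec, hec⟩ := exists_surjective_nat OCode
  have h1 : ∀ c : ℕ, ∃ A : Set (ℕ → Bool), coin A ≤ ENNReal.ofReal (2 * (1 / 4) ^ c) ∧
      ∀ x, x ∉ A → ∀ g : ℕ → ℕ, ∃ f : ℕ → ℕ, g ≤ f ∧ ∀ n, x ∉ GG z ec c (ini f n) := fun c =>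
    exists_avoid (measurableSet_GG z ec c) (GG_mono z ec c) (coin_GG_le z ec c)
  choose A hA1 hA2 using h1
  have h2 : {x | ∃ g : ℕ → ℕ, ∀ f : ℕ → ℕ, g ≤ f → x ∈ NN (yb z f)} ⊆ ⋂ c, A c := by
    rintro x ⟨g, hg⟩
    refine mem_iInter.2 fun c => ?_
    by_contra hxA
    obtain ⟨f, hf, hf'⟩ := hA2 c x hxA g
    obtain ⟨C, hCt, hC, hxC⟩ := mem_NN.1 (hg f hf)
    obtain ⟨d, hd⟩ := exists_code hC
    obtain ⟨e, rfl⟩ := hec d
    have hval : ∀ k, Encodable.encode (C k) ∈ eval (chi (yb z f)) (ec e) k := by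
      intro k
      rw [hd]
      exact Part.mem_some _
    obtain ⟨k, hk, hxk⟩ := hxC (e + c)
    obtain ⟨N, hN⟩ := use_principle _ _ _ _ (hval k)
    have h3 : IsOpen {f' : ℕ → ℕ | ∀ i < N, yb z f' i = yb z f i} :=
      (isOpen_agree (yb z f) N).preimage (continuous_yb z)
    obtain ⟨n, hn⟩ := exists_cylN h3 (show f ∈ _ from fun _ _ => rfl)
    refine hf' n (mem_iUnion.2 ⟨(e, k - (e + c)), C k, ?_, ?_, hxk⟩)
    · have h4 : e + c + (k - (e + c)) = k := by omega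
      simp only [h4]
      exact hCt k
    · have h4 : e + c + (k - (e + c)) = k := by omega
      simp only [h4]
      exact fun f' hf' => hN _ (hn hf')
  refine le_antisymm ?_ zero_le
  have h3 : ∀ c : ℕ, coin {x | ∃ g : ℕ → ℕ, ∀ f : ℕ → ℕ, g ≤ f → x ∈ NN (yb z f)} ≤
      ENNReal.ofReal (2 * (1 / 4) ^ c) := fun c =>
    (measure_mono (h2.trans (iInter_subset _ c))).trans (hA1 c)
  have h4 : Tendsto (fun c : ℕ => ENNReal.ofReal (2 * (1 / 4 : ℝ) ^ c)) atTop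
      (nhds (ENNReal.ofReal (2 * 0))) :=
    ENNReal.tendsto_ofReal ((tendsto_pow_atTop_nhds_zero_of_lt_one (by norm_num)
      (by norm_num)).const_mul 2)
  rw [mul_zero, ENNReal.ofReal_zero] at h4
  exact ge_of_tendsto' h4 h3

end Pool.Agent.Helper15UN
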