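import Mathlib
import Pool.Agent.Helper15_UN.Main

/-!
# The dichotomy and Menger sets
-/

set_option autoImplicit false

namespace Pool.Agent.Helper15UN

open MeasureTheory Topology Set Pool.Agent.Helper25TD Pool.Agent.Helper56WN
open Pool.Agent.Helper15DD (Small Vs)

variable {E D : Set (ℕ → Bool)}

/-- continuous functions are bounded on compact sets -/
theorem exists_bound_of_compact {K : Set (ℕ → Bool)} (hK : IsCompact K)
    {F : (ℕ → Bool) → ℕ → ℕ} (hF : ContinuousOn F K) : ∃ g : ℕ → ℕ, ∀ x ∈ K, F x ≤ g := by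
  have h1 : ∀ m, ∃ g, ∀ x ∈ K, F x m ≤ g := by
    intro m
    have h2 : ContinuousOn (fun x => F x m) K := (continuousOn_pi.1 hF) m
    obtain ⟨g, hg⟩ := (hK.image_of_continuousOn h2).bddAbove
    exact ⟨g, fun x hx => hg (mem_image_of_mem _ hx)⟩
  choose g hg using h1
  exact ⟨g, fun x hx m => hg m x hx⟩

theorem not_dominates_of_small {D0 : Set (ℕ → Bool)} (hD0 : D0 ⊆ D)
    (h : Small {C | IsClosed C ∧ Disjoint C D} E) {F : (ℕ → Bool) → ℕ → ℕ}
    (hF : ContinuousOn F D0ᶜ) : ¬ Dominates F E := by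
  obtain ⟨K, hK, hEK⟩ := h
  have h1 : ∀ n, ∃ g : ℕ → ℕ, ∀ x ∈ K n, F x ≤ g := by
    intro n
    refine exists_bound_of_compact (hK n).1.isCompact (hF.mono fun x hx hxD => ?_)
    exact disjoint_left.1 (hK n).2 hx (hD0 hxD)
  choose g hg using h1
  intro hd
  obtain ⟨x, hx, N, hN⟩ := hd fun m => (Finset.range (m + 1)).sup fun n => g n m
  obtain ⟨n, hn⟩ := mem_iUnion.1 (hEK hx)
  have h2 := hN (max N n) (le_max_left _ _)
  have h3 : g n (max N n) ≤ (Finset.range (max N n + 1)).sup fun i => g i (max N n) :=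
    Finset.le_sup (f := fun i => g i (max N n))
      (Finset.mem_range.2 (Nat.lt_succ_of_le (le_max_right _ _)))
  exact absurd (h3.trans_lt h2) (not_lt.2 (hg n x hn (max N n)))

/-- **The dichotomy.** -/
theorem small_iff (hED : Disjoint E D)
    (h1 : WinsI (Vs {C | IsClosed C ∧ Disjoint C D} E) ∨
      WinsII (Vs {C | IsClosed C ∧ Disjoint C D} E))
    (h2 : ∀ d : ℕ → (ℕ → Bool), (∀ j, d j ∈ D) →
      WinsI (Answers (Rel E d)) ∨ WinsII (Answers (Rel E d))) :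
    Small {C | IsClosed C ∧ Disjoint C D} E ↔
      ¬ ∃ (D0 : Set (ℕ → Bool)) (F : (ℕ → Bool) → ℕ → ℕ), D0 ⊆ D ∧ D0.Countable ∧
        ContinuousOn F D0ᶜ ∧ Dominates F E := by
  constructor
  · rintro h ⟨D0, F, hD0, -, hF, hd⟩
    exact not_dominates_of_small hD0 h hF hd
  · intro h
    refine (small_or_dominating hED h1 h2).resolve_right ?_
    rintro ⟨d, b, hd, hdom⟩
    refine h ⟨range d, psi d b, range_subset_iff.2 hd, countable_range d, ?_, hdom⟩
    have h3 : (range d)ᶜ = {x | ∀ j, x ≠ d j} := by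
      ext x
      simp [eq_comm]
    rw [h3]
    exact continuousOn_psi d b

/-- continuous images of Menger sets are not dominating -/
theorem Menger.not_dominates (hE : Menger E) {F : (ℕ → Bool) → ℕ → ℕ} (hF : ContinuousOn F E) :
    ¬ Dominates F E := by
  classical
  -- the covers
  let U : ℕ → ℕ → Set (Set (ℕ → Bool)) := fun N n =>
    {O | IsOpen O ∧ ∃ k, ∀ x ∈ E ∩ O, F x (N + n) ≤ k}
  have hU : ∀ N n, (∀ O ∈ U N n, IsOpen O) ∧ E ⊆ ⋃₀ U N n := by
    intro N n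
    refine ⟨fun O hO => hO.1, fun x hx => ?_⟩
    have h1 : ContinuousOn (fun y => F y (N + n)) E := (continuousOn_pi.1 hF) (N + n)
    obtain ⟨O, hO, hO'⟩ := continuousOn_iff'.1 h1 {F x (N + n)} (isOpen_discrete _)
    have h2 : ∀ y ∈ E ∩ O, F y (N + n) = F x (N + n) := by
      rintro y ⟨hyE, hyO⟩
      have h3 : y ∈ (fun y => F y (N + n)) ⁻¹' {F x (N + n)} ∩ E := by
        rw [hO']
        exact ⟨hyO, hyE⟩
      exact h3.1
    have h4 : x ∈ O ∩ E := by
      rw [← hO']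
      exact ⟨rfl, hx⟩
    exact mem_sUnion.2 ⟨O, ⟨hO, F x (N + n), fun y hy => (h2 y hy).le⟩, h4.1⟩
  have h1 : ∀ N, ∃ g : ℕ → ℕ, ∀ x ∈ E, ∃ n, F x (N + n) ≤ g n := by
    intro N
    obtain ⟨V, hV, hEV⟩ := hE (U N) (hU N)
    have h2 : ∀ n, ∃ g, ∀ O ∈ V n, ∀ x ∈ E ∩ O, F x (N + n) ≤ g := by
      intro n
      have h3 : ∀ O ∈ V n, ∃ k, ∀ x ∈ E ∩ O, F x (N + n) ≤ k := fun O hO => ((hV n).1 hO).2
      choose! k hk using h3
      obtain ⟨g, hg⟩ := ((hV n).2.image k).bddAbove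
      exact ⟨g, fun O hO x hx => (hk O hO x hx).trans (hg (mem_image_of_mem _ hO))⟩
    choose g hg using h2
    refine ⟨g, fun x hx => ?_⟩
    obtain ⟨n, hn⟩ := mem_iUnion.1 (hEV hx)
    obtain ⟨O, hO, hxO⟩ := mem_sUnion.1 hn
    exact ⟨n, hg n O hO x ⟨hx, hxO⟩⟩
  choose g hg using h1
  intro hd
  obtain ⟨x, hx, N, hN⟩ := hd fun m => (Finset.range (m + 1)).sup fun i => g i (m - i)
  obtain ⟨n, hn⟩ := hg N x hx
  have h2 := hN (N + n) (Nat.le_add_right _ _)
  have h3 : g N (N + n - N) ≤ (Finset.range (N + n + 1)).sup fun i => g i (N + n - i) :=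
    Finset.le_sup (f := fun i => g i (N + n - i)) (Finset.mem_range.2 (by omega))
  rw [Nat.add_sub_cancel_left] at h3
  omega

theorem isSigmaCompact_of_small (h : Small {C | IsClosed C ∧ Disjoint C Eᶜ} E) :
    IsSigmaCompact E := by
  obtain ⟨K, hK, hEK⟩ := h
  refine ⟨K, fun n => (hK n).1.isCompact, subset_antisymm (iUnion_subset fun n => ?_) hEK⟩
  intro x hx
  by_contra hxE
  exact disjoint_left.1 (hK n).2 hx hxE

/-- **Menger sets are σ-compact.** -/
theorem Menger.isSigmaCompact (hE : Menger E)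
    (h1 : WinsI (Vs {C | IsClosed C ∧ Disjoint C Eᶜ} E) ∨
      WinsII (Vs {C | IsClosed C ∧ Disjoint C Eᶜ} E))
    (h2 : ∀ d : ℕ → (ℕ → Bool), (∀ j, d j ∈ Eᶜ) →
      WinsI (Answers (Rel E d)) ∨ WinsII (Answers (Rel E d))) : IsSigmaCompact E := by
  refine isSigmaCompact_of_small ((small_iff disjoint_compl_right h1 h2).2 ?_)
  rintro ⟨D0, F, hD0, -, hF, hd⟩
  exact hE.not_dominates (hF.mono fun x hx hxD => hD0 hxD hx) hd

end Pool.Agent.Helper15UN
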