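import Mathlib
import Pool.Agent.Helper15_UN.DefsN
import Pool.Agent.Helper15_UN.Laver

/-!
# Increasing unions of null sets indexed by functions
-/

set_option autoImplicit false

namespace Pool.Agent.Helper15UN

open MeasureTheory Set Filter Pool.Agent.Helper25TD Pool.Agent.Helper56WN
open Pool.Agent.Helper56WM (grf TR_of_grf)
open scoped ENNReal

variable {E : (ℕ → ℕ) → Set (ℕ → Bool)}

/-- `h` codes a test that covers `E f` -/
def RelN (E : (ℕ → ℕ) → Set (ℕ → Bool)) (f h : ℕ → ℕ) : Prop :=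
  ∃ C : ℕ → List (List Bool), IsTest C ∧ (h = fun k => Encodable.encode (C k)) ∧ E f ⊆ Nl C

theorem cap_eq (E : (ℕ → ℕ) → Set (ℕ → Bool)) : Cap E = Answers (RelN E) := by
  ext y
  constructor
  · intro hy f hf
    obtain ⟨C, h1, h2, h3⟩ := hy f hf
    exact ⟨_, h2, C, h1, rfl, h3⟩
  · intro hy f hf
    obtain ⟨h, h1, C, h2, rfl, h3⟩ := hy f hf
    exact ⟨C, h2, h1, h3⟩

theorem turingInvariant_cap (E : (ℕ → ℕ) → Set (ℕ → Bool)) : TuringInvariant (Cap E) := by
  rw [cap_eq]
  exact turingInvariant_answers _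

theorem stable_relN (hE : Monotone E) (hn : ∀ f, coin (E f) = 0) : Stable (RelN E) := by
  refine stable_of_mono (fun f g h hfg hg => ?_) fun f => ?_
  · obtain ⟨C, h1, h2, h3⟩ := hg
    exact ⟨C, h1, h2, (hE hfg).trans h3⟩
  · obtain ⟨C, h1, h2⟩ := exists_Nl (hn f)
    exact ⟨_, C, h1, rfl, h2⟩

theorem not_winsII_cap (hE : Monotone E) (hn : ∀ f, coin (E f) = 0) : ¬ WinsII (Cap E) := by
  rw [cap_eq]
  exact not_winsII_answers (stable_relN hE hn)

theorem TR_yb (z : ℕ → Bool) (f : ℕ → ℕ) : TR (yb z f) f := TR_of_grf (TLE.join_right z (grf f))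

theorem winsI_cap_iff (hE : Monotone E) : WinsI (Cap E) ↔ coin (⋃ f, E f) = 0 := by
  constructor
  · intro h
    obtain ⟨z, hz⟩ := Pool.Agent.Helper56TB.cone_of_winsI (turingInvariant_cap E) h
    refine measure_mono_null (fun x hx => ?_) (coin_covered z)
    obtain ⟨g, hg⟩ := mem_iUnion.1 hx
    exact ⟨g, fun f hf => (hz (yb z f) (TLE.join_left z (grf f)) f (TR_yb z f)).subset_NN
      (hE hf hg)⟩
  · intro h
    obtain ⟨C, h1, h2⟩ := exists_Nl h
    obtain ⟨z, hz⟩ := exists_computes C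
    exact Pool.Agent.Helper56TB.winsI_of_cone (z := z) fun y hy f _ =>
      ⟨C, h1, hz y hy, (subset_iUnion E f).trans h2⟩

/-- the union of an increasing family of null sets indexed by all functions -/
theorem coin_iUnion_eq_zero (hE : Monotone E) (hn : ∀ f, coin (E f) = 0)
    (h : WinsI (Cap E) ∨ WinsII (Cap E)) : coin (⋃ f, E f) = 0 :=
  (winsI_cap_iff hE).1 (h.resolve_right (not_winsII_cap hE hn))

end Pool.Agent.Helper15UN
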