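import Mathlib
import Pool.Agent.Helper15_UN.NullUnion

/-!
# Outer measure and increasing families indexed by functions
-/

set_option autoImplicit false

namespace Pool.Agent.Helper15UN

open MeasureTheory Set Filter Pool.Agent.Helper25TD Pool.Agent.Helper56WN
open scoped ENNReal

variable {E : (ℕ → ℕ) → Set (ℕ → Bool)}

instance : IsProbabilityMeasure coin := by
  unfold coin
  infer_instance

/-- a sequence of members of the family whose union has the largest outer measure -/
theorem exists_seq (hE : Monotone E) : ∃ g : ℕ → ℕ → ℕ, Monotone g ∧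
    ∀ f, coin (E f) ≤ coin (⋃ n, E (g n)) ∧
      coin (⋃ n, E (g n ⊔ f)) ≤ coin (⋃ n, E (g n)) := by
  obtain ⟨u, hu, hu'⟩ := exists_seq_tendsto_sSup (S := range fun f => coin (E f))
    (range_nonempty _) (OrderTop.bddAbove _)
  choose F hF using fun n => (hu'.2 n)
  let G : ℕ → ℕ → ℕ := fun n k => (Finset.range (max n k + 1)).sup fun i => F i k
  have hG : Monotone G := fun m n hmn k =>
    Finset.sup_mono (Finset.range_subset_range.2 (by
      have := max_le_max_right k hmn
      omega))
  have hFG : ∀ n, F n ≤ G n := fun n k =>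
    Finset.le_sup (f := fun i => F i k) (Finset.mem_range.2 (by omega))
  have h1 : ∀ f, coin (E f) ≤ coin (⋃ n, E (G n)) := by
    intro f
    have h2 : coin (E f) ≤ sSup (range fun f => coin (E f)) := le_sSup ⟨f, rfl⟩
    refine h2.trans (le_of_tendsto' hu'.1 fun n => ?_)
    rw [← hF n]
    exact measure_mono ((hE (hFG n)).trans (subset_iUnion (fun n => E (G n)) n))
  refine ⟨G, hG, fun f => ⟨h1 f, ?_⟩⟩
  have h3 : Monotone fun n => E (G n ⊔ f) := fun m n hmn => hE (sup_le_sup_right (hG hmn) f)
  rw [h3.measure_iUnion]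
  exact iSup_le fun n => h1 _

/-- outer measure is continuous along increasing families indexed by functions -/
theorem coin_iUnion_eq_iSup (hE : Monotone E)
    (h : ∀ K : Set (ℕ → Bool), IsClosed K → (∀ f, coin (E f ∩ K) = 0) →
      WinsI (Cap fun f => E f ∩ K) ∨ WinsII (Cap fun f => E f ∩ K)) :
    coin (⋃ f, E f) = ⨆ f, coin (E f) := by
  refine le_antisymm ?_ (iSup_le fun f => measure_mono (subset_iUnion E f))
  obtain ⟨g, hg, hg'⟩ := exists_seq hE
  have hEg : Monotone fun n => E (g n) := hE.comp hg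
  have hs : coin (⋃ n, E (g n)) ≤ ⨆ f, coin (E f) := by
    rw [hEg.measure_iUnion]
    exact iSup_le fun n => le_iSup (fun f => coin (E f)) (g n)
  refine le_trans ?_ hs
  set H := toMeasurable coin (⋃ n, E (g n)) with hH
  have hHm : MeasurableSet H := measurableSet_toMeasurable _ _
  have hsub : (⋃ n, E (g n)) ⊆ H := subset_toMeasurable _ _
  -- outside `H` all members are null
  have hout : ∀ f, coin (E f \ H) = 0 := by
    intro f
    have h1 := measure_inter_add_diff (⋃ n, E (g n ⊔ f)) hHm (μ := coin)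
    have h2 : coin (⋃ n, E (g n)) ≤ coin ((⋃ n, E (g n ⊔ f)) ∩ H) :=
      measure_mono (subset_inter (iUnion_mono fun n => hE le_sup_left) hsub)
    have h3 : coin (E f \ H) ≤ coin ((⋃ n, E (g n ⊔ f)) \ H) :=
      measure_mono (diff_subset_diff_left
        ((hE (le_sup_right (a := g 0))).trans (subset_iUnion (fun n => E (g n ⊔ f)) 0)))
    have h4 := (hg' f).2
    rw [← h1] at h4
    have h5 : coin (⋃ n, E (g n)) + coin (E f \ H) ≤ coin (⋃ n, E (g n)) + 0 := by
      rw [add_zero]
      exact (add_le_add h2 h3).trans h4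
    exact le_antisymm ((ENNReal.add_le_add_iff_left (measure_ne_top _ _)).1 h5) zero_le
  -- the complement of `H` is approximated by closed sets
  have hcl : ∀ K ⊆ Hᶜ, IsClosed K → coin ((⋃ f, E f) ∩ K) = 0 := by
    intro K hK hKc
    have h1 : ∀ f, coin (E f ∩ K) = 0 := fun f =>
      measure_mono_null (show E f ∩ K ⊆ E f \ H from fun x hx => ⟨hx.1, hK hx.2⟩) (hout f)
    have h2 : Monotone fun f => E f ∩ K := fun f f' hff => inter_subset_inter_left K (hE hff)
    have h3 := coin_iUnion_eq_zero h2 h1 (h K hKc h1)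
    rwa [← iUnion_inter] at h3
  have hnull : coin ((⋃ f, E f) \ H) = 0 := by
    refine le_antisymm (ENNReal.le_of_forall_pos_le_add fun ε hε _ => ?_) zero_le
    obtain ⟨K, hK, hKc, hKε⟩ := hHm.compl.exists_isClosed_diff_lt (measure_ne_top coin _)
      (ENNReal.coe_ne_zero.2 hε.ne')
    have h1 : (⋃ f, E f) \ H ⊆ ((⋃ f, E f) ∩ K) ∪ (Hᶜ \ K) := by
      intro x hx
      by_cases hxK : x ∈ K
      · exact Or.inl ⟨hx.1, hxK⟩
      · exact Or.inr ⟨hx.2, hxK⟩
    refine (measure_mono h1).trans ((measure_union_le _ _).trans ?_)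
    rw [hcl K hK hKc]
    exact add_le_add le_rfl hKε.le
  calc coin (⋃ f, E f) ≤ coin ((⋃ f, E f) ∩ H) + coin ((⋃ f, E f) \ H) :=
        (measure_inter_add_diff _ hHm).ge
    _ ≤ coin H + 0 := add_le_add (measure_mono inter_subset_right) hnull.le
    _ = coin (⋃ n, E (g n)) := by rw [add_zero, hH, measure_toMeasurable]

end Pool.Agent.Helper15UN
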